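import Mathlib

/-!
# Absolute irreducibility and relative algebraic closedness
-/

namespace Pool.Agent.W_MP_d9e517_lc_h72

open Polynomial

section Ev

variable {σ : Type*} (k : Type*) {Ω : Type*} [Field k] [Field Ω] [Algebra k Ω]

/-- Evaluation of a polynomial over `k[z]` at the point `(z, w)` of `Ω`. -/
noncomputable def ev (z : σ → Ω) (w : Ω) : (MvPolynomial σ k)[X] →+* Ω :=
  Polynomial.eval₂RingHom (MvPolynomial.aeval z : MvPolynomial σ k →ₐ[k] Ω).toRingHom w

@[simp] theorem ev_C (z : σ → Ω) (w : Ω) (e : MvPolynomial σ k) :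
    ev k z w (C e) = MvPolynomial.aeval z e := by
  simp [ev]

@[simp] theorem ev_X (z : σ → Ω) (w : Ω) : ev k z w X = w := by
  simp [ev]

theorem ev_map {k' : Type*} [Field k'] [Algebra k k'] [Algebra k' Ω] [IsScalarTower k k' Ω]
    (z : σ → Ω) (w : Ω) (g : (MvPolynomial σ k)[X]) :
    ev k' z w (g.map (MvPolynomial.map (algebraMap k k'))) = ev k z w g := by
  unfold ev
  rw [Polynomial.coe_eval₂RingHom, Polynomial.coe_eval₂RingHom, Polynomial.eval₂_map]
  congr 1
  apply MvPolynomial.ringHom_ext
  · intro r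
    simp [IsScalarTower.algebraMap_apply k k' Ω]
  · intro i
    simp

/-- The minimal polynomial over the normal domain `k[z]`. -/
theorem exists_minpoly (z : σ → Ω) (hz : AlgebraicIndependent k z) (w : Ω)
    (p : (MvPolynomial σ k)[X]) (hp : p.Monic) (hpw : ev k z w p = 0) :
    ∃ f : (MvPolynomial σ k)[X], f.Monic ∧ Irreducible f ∧ ev k z w f = 0 ∧
      ∀ g, ev k z w g = 0 → f ∣ g := by
  let _ : Algebra (MvPolynomial σ k) Ω := (MvPolynomial.aeval z).toAlgebra
  have hinj : Function.Injective (algebraMap (MvPolynomial σ k) Ω) := hz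
  have : FaithfulSMul (MvPolynomial σ k) Ω := (faithfulSMul_iff_algebraMap_injective _ _).2 hinj
  have : Module.IsTorsionFree (MvPolynomial σ k) Ω := inferInstance
  have hev : ∀ g : (MvPolynomial σ k)[X], ev k z w g = aeval w g := fun g => rfl
  have hint : IsIntegral (MvPolynomial σ k) w := ⟨p, hp, hpw⟩
  refine ⟨minpoly (MvPolynomial σ k) w, minpoly.monic hint,
    (minpoly.prime_of_isIntegrallyClosed hint).irreducible, ?_, ?_⟩
  · rw [hev, minpoly.aeval]
  · intro g hg
    exact minpoly.isIntegrallyClosed_dvd hint hg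

end Ev

section Descent

variable {σ k k' Ω : Type*} [Field k] [Field k'] [Field Ω] [Algebra k k'] [Algebra k' Ω]
  [Algebra k Ω] [IsScalarTower k k' Ω]

omit [Field k'] [Algebra k k'] [Algebra k' Ω] [IsScalarTower k k' Ω] in
theorem exists_common_den (z : σ → Ω) (ι : Type*) (s : Finset ι) (c : ι → Ω)
    (hc : ∀ i ∈ s, c i ∈ IntermediateField.adjoin k (Set.range z)) :
    ∃ e : MvPolynomial σ k, MvPolynomial.aeval z e ≠ 0 ∧
      ∀ i ∈ s, ∃ r : MvPolynomial σ k, c i * MvPolynomial.aeval z e = MvPolynomial.aeval z r := by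
  classical
  induction s using Finset.induction_on with
  | empty => exact ⟨1, by simp, by simp⟩
  | insert a s ha ih =>
    obtain ⟨e, he, h⟩ := ih (fun i hi => hc i (Finset.mem_insert_of_mem hi))
    obtain ⟨r, t, hrt⟩ := (IntermediateField.mem_adjoin_range_iff k z (c a)).1
      (hc a (Finset.mem_insert_self a s))
    by_cases ht : MvPolynomial.aeval z t = (0 : Ω)
    · refine ⟨e, he, fun i hi => ?_⟩
      rcases Finset.mem_insert.1 hi with rfl | hi
      · rw [ht, div_zero] at hrt
        exact ⟨0, by simp [hrt]⟩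
      · exact h i hi
    · refine ⟨e * t, by rw [map_mul]; exact mul_ne_zero he ht, fun i hi => ?_⟩
      rcases Finset.mem_insert.1 hi with rfl | hi
      · refine ⟨r * e, ?_⟩
        rw [hrt, map_mul, map_mul]
        field_simp
      · obtain ⟨r', hr'⟩ := h i hi
        refine ⟨r' * t, ?_⟩
        rw [map_mul, map_mul, ← hr', mul_assoc]

omit [Field k'] [Algebra k k'] [Algebra k' Ω] [IsScalarTower k k' Ω] in
/-- Every element of `k(z, w)` is of the form `A(w) / e`, with `deg A < deg f`. -/
theorem exists_repr (z : σ → Ω) (w : Ω) (f : (MvPolynomial σ k)[X]) (hf : f.Monic)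
    (hfw : ev k z w f = 0) (y : Ω)
    (hy : y ∈ IntermediateField.adjoin k (Set.range z ∪ {w})) :
    ∃ (A : (MvPolynomial σ k)[X]) (e : MvPolynomial σ k), MvPolynomial.aeval z e ≠ 0 ∧
      A.natDegree < f.natDegree ∧ y * MvPolynomial.aeval z e = ev k z w A := by
  classical
  set k₁ := IntermediateField.adjoin k (Set.range z) with hk₁
  -- the polynomial over `k₁`
  have hmem : ∀ r : MvPolynomial σ k, MvPolynomial.aeval z r ∈ k₁ := by
    intro r
    have h1 : MvPolynomial.aeval z r ∈ Algebra.adjoin k (Set.range z) := by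
      rw [Algebra.adjoin_range_eq_range_aeval]
      exact ⟨r, rfl⟩
    exact IntermediateField.algebra_adjoin_le_adjoin k (Set.range z) h1
  let ρ : MvPolynomial σ k →+* k₁ :=
    { toFun := fun r => ⟨MvPolynomial.aeval z r, hmem r⟩
      map_one' := by ext; simp
      map_mul' := fun a b => by ext; simp
      map_zero' := by ext; simp
      map_add' := fun a b => by ext; simp }
  have hρ : ∀ g : (MvPolynomial σ k)[X], aeval w (g.map ρ) = ev k z w g := by
    intro g
    unfold ev
    rw [Polynomial.coe_eval₂RingHom, Polynomial.aeval_def, Polynomial.eval₂_map]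
    congr 1
  set F := f.map ρ with hF
  have hFm : F.Monic := hf.map ρ
  have hFw : aeval w F = 0 := by rw [hρ, hfw]
  have hFd : F.natDegree = f.natDegree := hf.natDegree_map ρ
  have halg : IsAlgebraic k₁ w := ⟨F, hFm.ne_zero, hFw⟩
  have hy2 : y ∈ Algebra.adjoin k₁ {w} := by
    rw [← IntermediateField.adjoin_simple_toSubalgebra_of_isAlgebraic halg]
    rw [← IntermediateField.adjoin_adjoin_left] at hy
    exact hy
  rw [Algebra.adjoin_singleton_eq_range_aeval] at hy2
  obtain ⟨q₀, hq₀⟩ := hy2
  set q := q₀ %ₘ F with hq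
  have hqy : aeval w q = y := by
    rw [hq, ← hq₀]
    conv_rhs => rw [← Polynomial.modByMonic_add_div q₀ F]
    simp [hFw]
  have hpos : 0 < f.natDegree := by
    rcases Nat.eq_zero_or_pos f.natDegree with h | h
    · rw [hf.natDegree_eq_zero.1 h, map_one] at hfw
      exact absurd hfw one_ne_zero
    · exact h
  have hqd : q.natDegree < f.natDegree := by
    rw [← hFd]
    exact Polynomial.natDegree_modByMonic_lt _ hFm (by
      intro h
      rw [h, natDegree_one] at hFd
      omega)
  obtain ⟨e, he, hr⟩ := exists_common_den (k := k) z ℕ (Finset.range f.natDegree)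
    (fun i => ((q.coeff i : k₁) : Ω)) (fun i _ => (q.coeff i).2)
  choose! r hr using hr
  refine ⟨∑ i ∈ Finset.range f.natDegree, monomial i (r i), e, he, ?_, ?_⟩
  · have h1 : (∑ i ∈ Finset.range f.natDegree, monomial i (r i)).natDegree ≤ f.natDegree - 1 := by
      refine natDegree_sum_le_of_forall_le _ _ (fun i hi => ?_)
      have := Finset.mem_range.1 hi
      exact (natDegree_monomial_le _).trans (by omega)
    omega
  · rw [← hqy, Polynomial.aeval_eq_sum_range' hqd, Finset.sum_mul, map_sum]
    refine Finset.sum_congr rfl (fun i hi => ?_)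
    have h1 := hr i hi
    rw [← C_mul_X_pow_eq_monomial, map_mul, map_pow, ev_C, ev_X, ← h1, Algebra.smul_def]
    have h2 : algebraMap k₁ Ω (q.coeff i) = ((q.coeff i : k₁) : Ω) := rfl
    rw [h2]
    ring


/-- If `f ∈ k[z][X]` remains the minimal polynomial of `w` over `k'[z]`, then
`k' ∩ k(z, w) = k`. -/
theorem mem_range_of_mem_adjoin (z : σ → Ω) (w : Ω) (f : (MvPolynomial σ k)[X]) (hf : f.Monic)
    (hfw : ev k z w f = 0)
    (hmin : ∀ g : (MvPolynomial σ k')[X], ev k' z w g = 0 → g.natDegree < f.natDegree → g = 0)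
    (u : k') (hu : algebraMap k' Ω u ∈ IntermediateField.adjoin k (Set.range z ∪ {w})) :
    u ∈ Set.range (algebraMap k k') := by
  obtain ⟨A, e, he, hA, hAe⟩ := exists_repr z w f hf hfw _ hu
  set g : (MvPolynomial σ k')[X] := A.map (MvPolynomial.map (algebraMap k k')) -
    C (MvPolynomial.C u * MvPolynomial.map (algebraMap k k') e) with hg
  have h1 : ev k' z w g = 0 := by
    rw [hg, map_sub, ev_map, ← hAe, ev_C, map_mul, MvPolynomial.aeval_C]
    have : MvPolynomial.aeval z (MvPolynomial.map (algebraMap k k') e) = MvPolynomial.aeval z e := by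
      simp [MvPolynomial.aeval_map_algebraMap]
    rw [this, sub_self]
  have h2 : g.natDegree < f.natDegree := by
    refine lt_of_le_of_lt (natDegree_sub_le _ _) ?_
    rw [natDegree_C]
    refine max_lt (lt_of_le_of_lt natDegree_map_le hA) (by omega)
  have h3 := hmin g h1 h2
  have h4 : (A.map (MvPolynomial.map (algebraMap k k'))).coeff 0 =
      MvPolynomial.C u * MvPolynomial.map (algebraMap k k') e := by
    have := congrArg (fun q => Polynomial.coeff q 0) (sub_eq_zero.1 (hg ▸ h3))
    simpa using this
  have he0 : e ≠ 0 := by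
    rintro rfl
    simp at he
  obtain ⟨m, hm⟩ := MvPolynomial.ne_zero_iff.1 he0
  have h5 := congrArg (MvPolynomial.coeff m) h4
  rw [coeff_map, MvPolynomial.coeff_map, MvPolynomial.coeff_C_mul, MvPolynomial.coeff_map] at h5
  refine ⟨MvPolynomial.coeff m (A.coeff 0) / MvPolynomial.coeff m e, ?_⟩
  rw [map_div₀, h5]
  have : algebraMap k k' (MvPolynomial.coeff m e) ≠ 0 := by
    simpa using hm
  field_simp

end Descent

section Fixed

variable {K' Ω : Type*} [Field K'] [CharZero K'] [Field Ω] [Algebra K' Ω] [IsAlgClosure K' Ω]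

theorem mem_range_of_fixed (x : Ω) (h : ∀ τ : Ω ≃ₐ[K'] Ω, τ x = x) :
    x ∈ Set.range (algebraMap K' Ω) := by
  have : IsGalois K' Ω := inferInstance
  exact (InfiniteGalois.mem_range_algebraMap_iff_fixed x).2 h

end Fixed

section Transport

variable {σ L E E' : Type*} [Field L] [Field E] [Field E'] [Algebra L E] [Algebra L E']

theorem irreducible_transport (e : E ≃ₐ[L] E') (f : (MvPolynomial σ L)[X])
    (h : Irreducible (f.map (MvPolynomial.map (algebraMap L E)))) :
    Irreducible (f.map (MvPolynomial.map (algebraMap L E'))) := by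
  have h1 : f.map (MvPolynomial.map (algebraMap L E')) =
      Polynomial.mapEquiv (MvPolynomial.mapEquiv σ e.toRingEquiv)
        (f.map (MvPolynomial.map (algebraMap L E))) := by
    rw [Polynomial.mapEquiv_apply, Polynomial.map_map]
    congr 1
    apply MvPolynomial.ringHom_ext
    · intro r
      simp
    · intro i
      simp
  rw [h1]
  exact (MulEquiv.irreducible_iff _).2 h

theorem isAlgClosed_algebraicClosure (L Ω : Type*) [Field L] [Field Ω] [Algebra L Ω]
    [IsAlgClosed Ω] : IsAlgClosed (algebraicClosure L Ω) :=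
  (algebraicClosure.isAlgClosure L Ω).isAlgClosed

theorem irreducible_transport' {σ L Ω Ω' : Type*} [Field L] [Field Ω] [Field Ω'] [Algebra L Ω]
    [Algebra L Ω'] [IsAlgClosed Ω] [IsAlgClosed Ω'] (f : (MvPolynomial σ L)[X])
    (h : Irreducible (f.map (MvPolynomial.map (algebraMap L (algebraicClosure L Ω))))) :
    Irreducible (f.map (MvPolynomial.map (algebraMap L (algebraicClosure L Ω')))) := by
  have := algebraicClosure.isAlgClosure L Ω
  have := algebraicClosure.isAlgClosure L Ω'
  exact irreducible_transport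
    (IsAlgClosure.equiv L (algebraicClosure L Ω) (algebraicClosure L Ω')) f h

end Transport

section Abs

variable {σ L K' : Type*} [Field L] [Field K'] [Algebra L K'] [CharZero K']

/-- A polynomial over `L[z]` that is minimal for `w` stays minimal over the algebraic closure of
`L`, when `L` is relatively algebraically closed. -/
theorem irreducible_map_of_relClosed (hL : ∀ x : K', IsAlgebraic L x → x ∈ Set.range (algebraMap L K'))
    (z : σ → K') (hz : AlgebraicIndependent L z) (w : K') (f : (MvPolynomial σ L)[X])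
    (hf : f.Monic) (hfw : ev L z w f = 0) (hfmin : ∀ g, ev L z w g = 0 → f ∣ g) :
    Irreducible (f.map (MvPolynomial.map
      (algebraMap L (algebraicClosure L (AlgebraicClosure K'))))) := by
  classical
  set Ω := AlgebraicClosure K' with hΩ
  set E := algebraicClosure L Ω with hE
  set z' : σ → Ω := fun i => algebraMap K' Ω (z i) with hz'
  set w' : Ω := algebraMap K' Ω w with hw'
  have hevL : ∀ g : (MvPolynomial σ L)[X], ev L z' w' g = algebraMap K' Ω (ev L z w g) := by
    intro g
    unfold ev
    rw [Polynomial.coe_eval₂RingHom, Polynomial.coe_eval₂RingHom, Polynomial.hom_eval₂]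
    congr 1
    apply MvPolynomial.ringHom_ext
    · intro r
      simp [IsScalarTower.algebraMap_apply L K' Ω]
    · intro i
      simp [hz']
  have hzΩ : AlgebraicIndependent L z' := by
    have := hz.map' (f := IsScalarTower.toAlgHom L K' Ω) (algebraMap K' Ω).injective
    exact this
  have hzE : AlgebraicIndependent E z' := hzΩ.algebraicClosure
  set fE : (MvPolynomial σ E)[X] := f.map (MvPolynomial.map (algebraMap L E)) with hfE
  have hfEm : fE.Monic := hf.map _
  have hfEd : fE.natDegree = f.natDegree := hf.natDegree_map _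
  have hfEw : ev E z' w' fE = 0 := by
    rw [hfE, ev_map, hevL, hfw, map_zero]
  obtain ⟨g, hgm, hgirr, hgw, hgmin⟩ := exists_minpoly E z' hzE w' fE hfEm hfEw
  -- invariance under Galois
  have hinv : ∀ (τ : Ω ≃ₐ[K'] Ω) (n : ℕ) (m : σ →₀ ℕ),
      τ (((g.coeff n).coeff m : E) : Ω) = (((g.coeff n).coeff m : E) : Ω) := by
    intro τ n m
    let τL : Ω ≃ₐ[L] Ω := τ.restrictScalars L
    let τE : E ≃ₐ[L] E := algebraicClosure.algEquivOfAlgEquiv τL
    have hτE : ∀ c : E, ((τE c : E) : Ω) = τ (c : Ω) := fun c => rfl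
    set gτ : (MvPolynomial σ E)[X] := g.map (MvPolynomial.map (τE : E →+* E)) with hgτ
    have h1 : ev E z' w' gτ = τ (ev E z' w' g) := by
      unfold ev
      rw [Polynomial.coe_eval₂RingHom, hgτ, Polynomial.eval₂_map]
      have h2 : τ (Polynomial.eval₂ (MvPolynomial.aeval z' : MvPolynomial σ E →ₐ[E] Ω).toRingHom
          w' g) = (τ : Ω →+* Ω) (Polynomial.eval₂
            (MvPolynomial.aeval z' : MvPolynomial σ E →ₐ[E] Ω).toRingHom w' g) := rfl
      rw [h2, Polynomial.hom_eval₂]
      have h3 : (τ : Ω →+* Ω) w' = w' := τ.commutes w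
      rw [h3]
      congr 1
      apply MvPolynomial.ringHom_ext
      · intro r
        simp only [RingHom.coe_comp, Function.comp_apply, MvPolynomial.map_C,
          AlgHom.toRingHom_eq_coe, RingHom.coe_coe, MvPolynomial.aeval_C]
        exact hτE r
      · intro i
        simp only [RingHom.coe_comp, Function.comp_apply, MvPolynomial.map_X,
          AlgHom.toRingHom_eq_coe, RingHom.coe_coe, MvPolynomial.aeval_X]
        exact (τ.commutes (z i)).symm
    rw [hgw, map_zero] at h1
    have h2 := hgmin gτ h1
    have h3 : gτ = g := Polynomial.eq_of_monic_of_dvd_of_natDegree_le hgm (hgm.map _) h2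
      (by rw [hgτ, hgm.natDegree_map])
    have h4 : ((g.coeff n).coeff m) = τE ((g.coeff n).coeff m) := by
      conv_lhs => rw [← h3]
      rw [hgτ, coeff_map, MvPolynomial.coeff_map]
      rfl
    rw [← hτE, ← h4]
  have hcoef : ∀ (n : ℕ) (m : σ →₀ ℕ), (g.coeff n).coeff m ∈ Set.range (algebraMap L E) := by
    intro n m
    obtain ⟨x, hx⟩ := mem_range_of_fixed (K' := K') (((g.coeff n).coeff m : E) : Ω)
      (fun τ => hinv τ n m)
    have h1 : IsAlgebraic L (((g.coeff n).coeff m : E) : Ω) :=
      (mem_algebraicClosure_iff).1 ((g.coeff n).coeff m).2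
    rw [← hx] at h1
    have h2 : IsAlgebraic L x := by
      rwa [isAlgebraic_algebraMap_iff (algebraMap K' Ω).injective] at h1
    obtain ⟨l, rfl⟩ := hL x h2
    refine ⟨l, ?_⟩
    apply Subtype.ext
    rw [← hx, ← IsScalarTower.algebraMap_apply L K' Ω]
    rfl
  have hlift : g ∈ Polynomial.lifts (MvPolynomial.map (σ := σ) (algebraMap L E)) := by
    rw [Polynomial.lifts_iff_coeff_lifts]
    intro n
    rw [MvPolynomial.mem_range_map_iff_coeffs_subset]
    intro c hc
    obtain ⟨m, hm, rfl⟩ := MvPolynomial.mem_coeffs_iff.1 hc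
    exact hcoef n m
  obtain ⟨g₀, hg₀1, hg₀2, hg₀3⟩ := Polynomial.lifts_and_natDegree_eq_and_monic hlift hgm
  have h1 : ev L z w g₀ = 0 := by
    apply (algebraMap K' Ω).injective
    rw [← hevL, ← ev_map L (k' := E), hg₀1, hgw, map_zero]
  have h2 := hfmin g₀ h1
  have h3 : fE ∣ g := by
    rw [← hg₀1]
    exact Polynomial.map_dvd _ h2
  have h4 : g ∣ fE := hgmin fE hfEw
  have h5 : fE = g := Polynomial.eq_of_monic_of_associated hfEm hgm (associated_of_dvd_dvd h3 h4)
  rw [h5]
  exact hgirr


omit [CharZero K'] in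
/-- Converse direction: if `f` is absolutely irreducible over `L`, then `L` is relatively
algebraically closed in the field `L(z, w)`. -/
theorem relClosed_of_irreducible (z : σ → K') (hz : AlgebraicIndependent L z) (w : K')
    (f : (MvPolynomial σ L)[X]) (hf : f.Monic) (hfw : ev L z w f = 0)
    (htop : IntermediateField.adjoin L (Set.range z ∪ {w}) = ⊤)
    (hirr : Irreducible (f.map (MvPolynomial.map
      (algebraMap L (algebraicClosure L (AlgebraicClosure K')))))) :
    ∀ x : K', IsAlgebraic L x → x ∈ Set.range (algebraMap L K') := by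
  classical
  set Ω := AlgebraicClosure K' with hΩ
  set E := algebraicClosure L Ω with hE
  set z' : σ → Ω := fun i => algebraMap K' Ω (z i) with hz'
  set w' : Ω := algebraMap K' Ω w with hw'
  have hevL : ∀ g : (MvPolynomial σ L)[X], ev L z' w' g = algebraMap K' Ω (ev L z w g) := by
    intro g
    unfold ev
    rw [Polynomial.coe_eval₂RingHom, Polynomial.coe_eval₂RingHom, Polynomial.hom_eval₂]
    congr 1
    apply MvPolynomial.ringHom_ext
    · intro r
      simp [IsScalarTower.algebraMap_apply L K' Ω]
    · intro i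
      simp [hz']
  have hzΩ : AlgebraicIndependent L z' := by
    have := hz.map' (f := IsScalarTower.toAlgHom L K' Ω) (algebraMap K' Ω).injective
    exact this
  have hzE : AlgebraicIndependent E z' := hzΩ.algebraicClosure
  set fE : (MvPolynomial σ E)[X] := f.map (MvPolynomial.map (algebraMap L E)) with hfE
  have hfEm : fE.Monic := hf.map _
  have hfEd : fE.natDegree = f.natDegree := hf.natDegree_map _
  have hfEw : ev E z' w' fE = 0 := by
    rw [hfE, ev_map, hevL, hfw, map_zero]
  obtain ⟨g, hgm, hgirr, hgw, hgmin⟩ := exists_minpoly E z' hzE w' fE hfEm hfEw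
  have h5 : fE = g := by
    have h1 := hgmin fE hfEw
    exact (Polynomial.eq_of_monic_of_associated hgm hfEm
      (hgirr.associated_of_dvd hirr h1)).symm
  intro x hx
  have hxΩ : IsAlgebraic L (algebraMap K' Ω x) := hx.algebraMap
  let u : E := ⟨algebraMap K' Ω x, (mem_algebraicClosure_iff).2 hxΩ⟩
  have hmain := mem_range_of_mem_adjoin (k := L) (k' := E) z' w' f hf
    (by rw [hevL, hfw, map_zero]) (by
      intro g' hg' hdeg
      by_contra hne
      have h6 := hgmin g' hg'
      have h7 := Polynomial.natDegree_le_of_dvd h6 hne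
      rw [← h5, hfEd] at h7
      omega) u (by
      have h8 : x ∈ IntermediateField.adjoin L (Set.range z ∪ {w}) := by
        rw [htop]; trivial
      have h9 : algebraMap K' Ω x ∈
          (IntermediateField.adjoin L (Set.range z ∪ {w})).map (IsScalarTower.toAlgHom L K' Ω) :=
        ⟨x, h8, rfl⟩
      rw [IntermediateField.adjoin_map] at h9
      have h10 : (IsScalarTower.toAlgHom L K' Ω) '' (Set.range z ∪ {w}) =
          Set.range z' ∪ {w'} := by
        rw [Set.image_union, Set.image_singleton, ← Set.range_comp]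
        rfl
      rw [h10] at h9
      exact h9)
  obtain ⟨l, hl⟩ := hmain
  refine ⟨l, ?_⟩
  apply (algebraMap K' Ω).injective
  rw [← IsScalarTower.algebraMap_apply L K' Ω]
  have := congrArg (fun c : E => (c : Ω)) hl
  exact this

end Abs

end Pool.Agent.W_MP_d9e517_lc_h72
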