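import Mathlib

/-!
# Restriction of irreducible polynomials to lines (an elementary Bertini theorem)

`exists_line`: if `f ∈ E[z][X]` is monic and irreducible, `E` algebraically closed of
characteristic zero and `S ⊆ E` infinite, then for suitable points `a, b ∈ S^σ` the polynomial
`f(a + b t, X) ∈ E[t][X]` is irreducible.
-/

namespace Pool.Agent.W_MP_d9e517_lc_h72

open Polynomial

section Swap

variable {E : Type*} [Field E]

theorem coeff_coeff_swap (p : E[X][X]) (m n : ℕ) :
    ((Bivariate.swap p).coeff m).coeff n = (p.coeff n).coeff m := by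
  induction p using Polynomial.induction_on' with
  | add p q hp hq => simp [hp, hq]
  | monomial k q =>
    induction q using Polynomial.induction_on' with
    | add p q hp hq => simp only [map_add, coeff_add, hp, hq]
    | monomial j r =>
      rw [Bivariate.swap_monomial_monomial]
      simp only [coeff_monomial]
      by_cases h1 : j = m <;> by_cases h2 : k = n <;> simp [h1, h2, coeff_monomial]

theorem natDegree_swap_le_iff (p : E[X][X]) (δ : ℕ) :
    (Bivariate.swap p).natDegree ≤ δ ↔ ∀ n, (p.coeff n).natDegree ≤ δ := by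
  constructor
  · intro h n
    rw [natDegree_le_iff_coeff_eq_zero]
    intro N hN
    rw [← coeff_coeff_swap, coeff_eq_zero_of_natDegree_lt (lt_of_le_of_lt h hN), coeff_zero]
  · intro h
    rw [natDegree_le_iff_coeff_eq_zero]
    intro N hN
    ext n
    rw [coeff_coeff_swap, coeff_eq_zero_of_natDegree_lt (lt_of_le_of_lt (h n) hN), coeff_zero]

theorem coeff_natDegree_le_of_mul {g h : E[X][X]} (hg : g ≠ 0) (hh : h ≠ 0) {δ : ℕ}
    (H : ∀ n, ((g * h).coeff n).natDegree ≤ δ) (n : ℕ) : (g.coeff n).natDegree ≤ δ := by
  refine (natDegree_swap_le_iff g δ).1 ?_ n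
  have h1 := (natDegree_swap_le_iff (g * h) δ).2 H
  rw [map_mul, natDegree_mul] at h1
  · omega
  · simpa using hg
  · simpa using hh

end Swap

theorem exists_point {E σ : Type*} [Field E] [Finite σ] (S : Set E) (hS : S.Infinite)
    (p : MvPolynomial σ E) (hp : p ≠ 0) : ∃ a : σ → E, (∀ i, a i ∈ S) ∧ MvPolynomial.eval a p ≠ 0 := by
  by_contra hcon
  push Not at hcon
  refine hp (MvPolynomial.funext_set (fun _ => S) (fun _ => hS) ?_)
  intro x hx
  rw [hcon x (fun i => hx i (Set.mem_univ i)), map_zero]

theorem eq_prod_of_roots {P ι : Type*} [CommRing P] [IsDomain P] (F : P[X]) (hF : F.Monic)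
    (W : Finset ι) (φ : ι → P) (hinj : Set.InjOn φ W) (hroot : ∀ i ∈ W, F.eval (φ i) = 0)
    (hcard : F.natDegree ≤ W.card) : F = ∏ i ∈ W, (X - C (φ i)) := by
  classical
  have hnd : (W.val.map φ).Nodup := by
    rw [Multiset.nodup_map_iff_inj_on W.nodup]
    intro x hx y hy h
    exact hinj hx hy h
  have hle : W.val.map φ ≤ F.roots := by
    rw [Multiset.le_iff_subset hnd]
    intro x hx
    obtain ⟨i, hi, rfl⟩ := Multiset.mem_map.1 hx
    exact (mem_roots hF.ne_zero).2 (hroot i hi)
  have hcard' : F.roots.card ≤ (W.val.map φ).card := by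
    rw [Multiset.card_map]
    exact (card_roots' F).trans hcard
  have heq := Multiset.eq_of_le_of_card_le hle hcard'
  have h2 : F.roots.card = F.natDegree := by
    refine le_antisymm (card_roots' F) ?_
    rw [← heq, Multiset.card_map]
    exact hcard
  have h3 := prod_multiset_X_sub_C_of_monic_of_roots_card_eq hF h2
  rw [← heq, Multiset.map_map] at h3
  rw [← h3]
  rfl

/-- Separability of an irreducible monic polynomial over a polynomial ring in characteristic
zero, with cleared denominators. -/
theorem exists_bezout {R : Type*} [CommRing R] [IsDomain R] [IsIntegrallyClosed R] [CharZero R]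
    (f : R[X]) (hf : f.Monic) (hirr : Irreducible f) :
    ∃ d : R, d ≠ 0 ∧ ∃ u v : R[X], u * f + v * derivative f = C d := by
  classical
  let Q := FractionRing R
  have : CharZero Q := IsFractionRing.charZero R
  have h1 : Irreducible (f.map (algebraMap R Q)) :=
    (hf.irreducible_iff_irreducible_map_fraction_map (K := Q)).1 hirr
  have h2 := h1.separable
  obtain ⟨a, b, hab⟩ := h2
  obtain ⟨ra, hra0, hra⟩ := IsLocalization.integerNormalization_spec (nonZeroDivisors R) a
  obtain ⟨rb, hrb0, hrb⟩ := IsLocalization.integerNormalization_spec (nonZeroDivisors R) b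
  refine ⟨ra * rb, mul_ne_zero (nonZeroDivisors.ne_zero hra0) (nonZeroDivisors.ne_zero hrb0),
    C rb * IsLocalization.integerNormalization (nonZeroDivisors R) a,
    C ra * IsLocalization.integerNormalization (nonZeroDivisors R) b, ?_⟩
  apply Polynomial.map_injective (algebraMap R Q) (IsFractionRing.injective R Q)
  rw [Polynomial.map_add, Polynomial.map_mul, Polynomial.map_mul, Polynomial.map_mul,
    Polynomial.map_mul, hra, hrb, ← Polynomial.derivative_map]
  rw [Polynomial.map_C, Polynomial.map_C, Polynomial.map_C, map_mul, C_mul]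
  have e1 : ∀ (r : R) (p : Q[X]), r • p = C (algebraMap R Q r) * p := by
    intro r p
    rw [← Polynomial.smul_eq_C_mul, algebraMap_smul]
  rw [e1, e1]
  linear_combination (C (algebraMap R Q ra) * C (algebraMap R Q rb)) * hab


section Line

variable {E σ : Type*} [Field E]

/-- Substitution of the line `z_i = a_i + b_i t`. -/
noncomputable def lineHom (a b : σ → E) : MvPolynomial σ E →+* E[X] :=
  MvPolynomial.eval₂Hom C (fun i => C (a i) + C (b i) * X)

/-- Substitution of the generic line through `a`. -/
noncomputable def genLineHom (a : σ → E) : MvPolynomial σ E →+* (MvPolynomial σ E)[X] :=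
  MvPolynomial.eval₂Hom (C.comp MvPolynomial.C)
    (fun i => C (MvPolynomial.C (a i)) + C (MvPolynomial.X i) * X)

/-- The left inverse of `genLineHom`. -/
noncomputable def backHom (a : σ → E) : (MvPolynomial σ E)[X] →+* MvPolynomial σ E :=
  Polynomial.eval₂RingHom (MvPolynomial.eval₂Hom MvPolynomial.C
    (fun i => MvPolynomial.X i - MvPolynomial.C (a i))) 1

theorem backHom_comp (a : σ → E) : (backHom a).comp (genLineHom a) = RingHom.id _ := by
  apply MvPolynomial.ringHom_ext
  · intro r
    simp [backHom, genLineHom]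
  · intro i
    simp [backHom, genLineHom]

theorem mapEval_comp_genLineHom (a b : σ → E) :
    (Polynomial.mapRingHom (MvPolynomial.eval b)).comp (genLineHom a) = lineHom a b := by
  apply MvPolynomial.ringHom_ext
  · intro r
    simp [lineHom, genLineHom]
  · intro i
    simp [lineHom, genLineHom]

theorem evalZero_comp_genLineHom (a : σ → E) :
    (Polynomial.evalRingHom (0 : MvPolynomial σ E)).comp (genLineHom a) =
      MvPolynomial.C.comp (MvPolynomial.eval a) := by
  apply MvPolynomial.ringHom_ext
  · intro r
    simp [genLineHom]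
  · intro i
    simp [genLineHom]

theorem evalZero_comp_lineHom (a b : σ → E) :
    (Polynomial.evalRingHom (0 : E)).comp (lineHom a b) = MvPolynomial.eval a := by
  apply MvPolynomial.ringHom_ext
  · intro r
    simp [lineHom]
  · intro i
    simp [lineHom]

end Line

section Main

variable {E σ : Type*} [Field E] [IsAlgClosed E] [CharZero E] [Finite σ]

theorem exists_line (S : Set E) (hS : S.Infinite) (f : (MvPolynomial σ E)[X]) (hf : f.Monic)
    (hirr : Irreducible f) (e e' : MvPolynomial σ E) (he : e ≠ 0) (he' : e' ≠ 0) :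
    ∃ a b : σ → E, (∀ i, a i ∈ S) ∧ (∀ i, b i ∈ S) ∧ MvPolynomial.eval a e ≠ 0 ∧
      MvPolynomial.eval b e' ≠ 0 ∧ Irreducible (f.map (lineHom a b)) := by
  classical
  -- the point `a`
  obtain ⟨d, hd0, u, v, huv⟩ := exists_bezout f hf hirr
  obtain ⟨a, haS, ha⟩ := exists_point S hS (d * e) (mul_ne_zero hd0 he)
  rw [map_mul] at ha
  have hda : MvPolynomial.eval a d ≠ 0 := left_ne_zero_of_mul ha
  have hea : MvPolynomial.eval a e ≠ 0 := right_ne_zero_of_mul ha
  set fa : E[X] := f.map (MvPolynomial.eval a) with hfa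
  have hfam : fa.Monic := hf.map _
  have hfad : fa.natDegree = f.natDegree := hf.natDegree_map _
  have hbez : u.map (MvPolynomial.eval a) * fa + v.map (MvPolynomial.eval a) * derivative fa
      = C (MvPolynomial.eval a d) := by
    rw [hfa, derivative_map, ← Polynomial.map_mul, ← Polynomial.map_mul, ← Polynomial.map_add,
      huv, map_C]
  have hsimple : ∀ w, fa.eval w = 0 → (derivative fa).eval w ≠ 0 := by
    intro w hw h0
    have := congrArg (Polynomial.eval w) hbez
    rw [eval_add, eval_mul, eval_mul, hw, h0, eval_C] at this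
    simp only [mul_zero, add_zero] at this
    exact hda this.symm
  have hsep : fa.Separable := by
    refine ⟨C (MvPolynomial.eval a d)⁻¹ * u.map (MvPolynomial.eval a),
      C (MvPolynomial.eval a d)⁻¹ * v.map (MvPolynomial.eval a), ?_⟩
    rw [mul_assoc, mul_assoc, ← mul_add, hbez, ← C_mul, inv_mul_cancel₀ hda, C_1]
  set W : Finset E := fa.roots.toFinset with hW
  have hWcard : W.card = f.natDegree := by
    rw [hW, Multiset.toFinset_card_of_nodup (nodup_roots hsep), ← hfad]
    exact IsAlgClosed.card_roots_eq_natDegree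
  have hWroot : ∀ w ∈ W, fa.eval w = 0 := by
    intro w hw
    rw [hW, Multiset.mem_toFinset] at hw
    exact (mem_roots hfam.ne_zero).1 hw
  -- power series roots
  set ι : (MvPolynomial σ E)[X] →+* PowerSeries (MvPolynomial σ E) :=
    Polynomial.coeToPowerSeries.ringHom with hι
  have hιinj : Function.Injective ι := Polynomial.coe_injective _
  set F₀ : (MvPolynomial σ E)[X][X] := f.map (genLineHom a) with hF₀
  set F : (PowerSeries (MvPolynomial σ E))[X] := F₀.map ι with hF
  have hF₀m : F₀.Monic := hf.map _
  have hFm : F.Monic := hF₀m.map _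
  have hFd : F.natDegree = f.natDegree := by
    rw [hF, hF₀m.natDegree_map, hF₀, hf.natDegree_map]
  have hconst : (PowerSeries.constantCoeff (R := MvPolynomial σ E)).comp (ι.comp (genLineHom a)) =
      MvPolynomial.C.comp (MvPolynomial.eval a) := by
    rw [← evalZero_comp_genLineHom]
    refine RingHom.ext (fun x => ?_)
    simp [hι, Polynomial.coeff_zero_eq_eval_zero]
  have hFconst : F.map (PowerSeries.constantCoeff (R := MvPolynomial σ E)) =
      fa.map MvPolynomial.C := by
    rw [hF, hF₀, Polynomial.map_map, Polynomial.map_map, RingHom.comp_assoc, hconst, hfa,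
      Polynomial.map_map]
  have hroots : ∀ w : E, fa.eval w = 0 → ∃ φ : PowerSeries (MvPolynomial σ E), F.eval φ = 0 ∧
      PowerSeries.constantCoeff φ = MvPolynomial.C w := by
    intro w hw
    have H : HenselianRing (PowerSeries (MvPolynomial σ E)) (Ideal.span {PowerSeries.X}) :=
      inferInstance
    have hev : ∀ (G : (PowerSeries (MvPolynomial σ E))[X]) (g : E[X]),
        G.map (PowerSeries.constantCoeff (R := MvPolynomial σ E)) = g.map MvPolynomial.C →
        PowerSeries.constantCoeff (G.eval (PowerSeries.C (MvPolynomial.C w))) =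
          MvPolynomial.C (g.eval w) := by
      intro G g hGg
      rw [← Polynomial.eval₂_at_apply, ← Polynomial.eval_map, hGg, PowerSeries.constantCoeff_C,
        Polynomial.eval_map, Polynomial.eval₂_at_apply]
    obtain ⟨φ, hφ1, hφ2⟩ := H.is_henselian F hFm (PowerSeries.C (MvPolynomial.C w)) (by
      rw [Ideal.mem_span_singleton, PowerSeries.X_dvd_iff, hev F fa hFconst, hw, map_zero]) (by
      apply IsUnit.map
      rw [PowerSeries.isUnit_iff_constantCoeff, hev (derivative F) (derivative fa)
        (by rw [← Polynomial.derivative_map, hFconst, Polynomial.derivative_map])]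
      exact (IsUnit.mk0 _ (hsimple w hw)).map _)
    refine ⟨φ, hφ1, ?_⟩
    rw [Ideal.mem_span_singleton, PowerSeries.X_dvd_iff, map_sub, PowerSeries.constantCoeff_C,
      sub_eq_zero] at hφ2
    exact hφ2
  choose! φ hφroot hφconst using hroots
  have hφinj : Set.InjOn φ W := by
    intro w hw w' hw' h
    have h1 := hφconst w (hWroot w hw)
    rw [h, hφconst w' (hWroot w' hw')] at h1
    exact (MvPolynomial.C_injective σ E h1).symm
  have hFprod : F = ∏ w ∈ W, (X - C (φ w)) :=
    eq_prod_of_roots F hFm W φ hφinj (fun w hw => hφroot w (hWroot w hw)) (by rw [hFd, hWcard])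
  -- degree bound in `t`
  obtain ⟨δ, hδ⟩ : ∃ δ : ℕ, ∀ n, (F₀.coeff n).natDegree ≤ δ := by
    refine ⟨F₀.support.sup (fun n => (F₀.coeff n).natDegree), fun n => ?_⟩
    by_cases hn : n ∈ F₀.support
    · exact Finset.le_sup (f := fun n => (F₀.coeff n).natDegree) hn
    · rw [notMem_support_iff.1 hn]
      simp
  -- claim 1
  have claim1 : ∀ I : Finset E, I ⊆ W → I.Nonempty → I ≠ W → ∃ n j : ℕ, δ < j ∧
      PowerSeries.coeff j ((∏ w ∈ I, (X - C (φ w))).coeff n) ≠ 0 := by
    intro I hIW hne hIne
    by_contra hcon
    push Not at hcon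
    set PI : (PowerSeries (MvPolynomial σ E))[X] := ∏ w ∈ I, (X - C (φ w)) with hPI
    have hPIm : PI.Monic := monic_prod_of_monic _ _ (fun w _ => monic_X_sub_C _)
    have hPId : PI.natDegree = I.card := by
      rw [hPI, natDegree_prod_of_monic _ _ (fun w _ => monic_X_sub_C _)]
      simp
    have hlift : PI ∈ Polynomial.lifts ι := by
      rw [Polynomial.lifts_iff_coeff_lifts]
      intro n
      refine ⟨PowerSeries.trunc (δ + 1) (PI.coeff n), ?_⟩
      ext1 j
      rw [hι]
      simp only [Polynomial.coeToPowerSeries.ringHom_apply, Polynomial.coeff_coe,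
        PowerSeries.coeff_trunc]
      split_ifs with hj
      · rfl
      · rw [hcon n j (by omega)]
    obtain ⟨G, hG1, hG2, hG3⟩ := Polynomial.lifts_and_natDegree_eq_and_monic hlift hPIm
    have hdvd : G ∣ F₀ := by
      rw [← Polynomial.map_dvd_map ι hιinj hG3, hG1, ← hF, hFprod]
      exact Finset.prod_dvd_prod_of_subset _ _ _ hIW
    have hdvd2 : G.map (backHom a) ∣ f := by
      have h1 := Polynomial.map_dvd (backHom a) hdvd
      rwa [hF₀, Polynomial.map_map, backHom_comp, Polynomial.map_id] at h1
    obtain ⟨H, hH⟩ := hdvd2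
    have hGm : (G.map (backHom a)).Monic := hG3.map _
    have hGd : (G.map (backHom a)).natDegree = I.card := by
      rw [hG3.natDegree_map, hG2, hPId]
    have hHm : H.Monic := by
      rw [hH] at hf
      exact hGm.of_mul_monic_left hf
    have hdeg : f.natDegree = I.card + H.natDegree := by
      conv_lhs => rw [hH]
      rw [hGm.natDegree_mul hHm, hGd]
    have hIlt : I.card < W.card := Finset.card_lt_card (Finset.ssubset_iff_subset_ne.2 ⟨hIW, hIne⟩)
    rcases hirr.isUnit_or_isUnit hH with h1 | h1
    · have := hGm.eq_one_of_isUnit h1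
      rw [this, natDegree_one] at hGd
      exact absurd hGd.symm hne.card_pos.ne'
    · have := hHm.eq_one_of_isUnit h1
      rw [this, natDegree_one] at hdeg
      omega
  choose! nn jj hjj hcoef using claim1
  set prop : Finset (Finset E) := W.powerset.filter (fun I => I.Nonempty ∧ I ≠ W) with hprop
  set cc : Finset E → MvPolynomial σ E := fun I =>
    PowerSeries.coeff (jj I) ((∏ w ∈ I, (X - C (φ w))).coeff (nn I)) with hcc
  have hprod : e' * ∏ I ∈ prop, cc I ≠ 0 := by
    refine mul_ne_zero he' (Finset.prod_ne_zero_iff.2 ?_)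
    intro I hI
    rw [hprop, Finset.mem_filter, Finset.mem_powerset] at hI
    exact hcoef I hI.1 hI.2.1 hI.2.2
  obtain ⟨b, hbS, hb⟩ := exists_point S hS _ hprod
  rw [map_mul, map_prod] at hb
  have hbe : MvPolynomial.eval b e' ≠ 0 := left_ne_zero_of_mul hb
  have hbc : ∀ I ⊆ W, I.Nonempty → I ≠ W → MvPolynomial.eval b (cc I) ≠ 0 := by
    intro I h1 h2 h3
    have h4 := right_ne_zero_of_mul hb
    rw [Finset.prod_ne_zero_iff] at h4
    refine h4 I ?_
    rw [hprop, Finset.mem_filter, Finset.mem_powerset]
    exact ⟨h1, h2, h3⟩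
  refine ⟨a, b, haS, hbS, hea, hbe, ?_⟩
  -- irreducibility
  set fb : E[X][X] := f.map (lineHom a b) with hfb
  have hfbm : fb.Monic := hf.map _
  have hfbd : fb.natDegree = f.natDegree := hf.natDegree_map _
  have hfb0 : fb = F₀.map (Polynomial.mapRingHom (MvPolynomial.eval b)) := by
    rw [hF₀, Polynomial.map_map, mapEval_comp_genLineHom]
  have hpos : 0 < f.natDegree := by
    rcases Nat.eq_zero_or_pos f.natDegree with h | h
    · exact absurd (hf.natDegree_eq_zero.1 h ▸ hirr) not_irreducible_one
    · exact h
  rw [Monic.irreducible_iff_natDegree hfbm]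
  refine ⟨?_, ?_⟩
  · intro h
    rw [h, natDegree_one] at hfbd
    omega
  intro g h hg hh hgh
  by_contra hcon
  push Not at hcon
  have hgd : 0 < g.natDegree := Nat.pos_of_ne_zero hcon.1
  have hhd : 0 < h.natDegree := Nat.pos_of_ne_zero hcon.2
  have hghd : g.natDegree + h.natDegree = f.natDegree := by
    rw [← hfbd, ← hgh, hg.natDegree_mul hh]
  set ι' : E[X] →+* PowerSeries E := Polynomial.coeToPowerSeries.ringHom with hι'
  set ev : PowerSeries (MvPolynomial σ E) →+* PowerSeries E :=
    PowerSeries.map (MvPolynomial.eval b) with hev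
  have hcomm : ev.comp ι = ι'.comp (Polynomial.mapRingHom (MvPolynomial.eval b)) := by
    refine RingHom.ext (fun x => PowerSeries.ext (fun j => ?_))
    rw [hev, hι, hι']
    simp
  have hfbι : fb.map ι' = F.map ev := by
    calc fb.map ι' = (F₀.map (Polynomial.mapRingHom (MvPolynomial.eval b))).map ι' := by rw [hfb0]
      _ = F₀.map (ι'.comp (Polynomial.mapRingHom (MvPolynomial.eval b))) :=
        Polynomial.map_map _ _ _
      _ = F₀.map (ev.comp ι) := by rw [hcomm]
      _ = (F₀.map ι).map ev := (Polynomial.map_map _ _ _).symm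
  have hrootb : ∀ w ∈ W, (fb.map ι').eval (ev (φ w)) = 0 := by
    intro w hw
    rw [hfbι, Polynomial.eval_map, Polynomial.eval₂_at_apply, hφroot w (hWroot w hw), map_zero]
  have hconstb : ∀ w ∈ W, PowerSeries.constantCoeff (ev (φ w)) = w := by
    intro w hw
    have h1 := hφconst w (hWroot w hw)
    rw [← PowerSeries.coeff_zero_eq_constantCoeff_apply] at h1 ⊢
    rw [hev, PowerSeries.coeff_map, h1, MvPolynomial.eval_C]
  have hinjb : Set.InjOn (fun w => ev (φ w)) W := by
    intro w hw w' hw' h
    rw [← hconstb w hw, ← hconstb w' hw']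
    exact congrArg _ h
  set I : Finset E := W.filter (fun w => (g.map ι').eval (ev (φ w)) = 0) with hI
  set J : Finset E := W.filter (fun w => (h.map ι').eval (ev (φ w)) = 0) with hJ
  have hcardle : ∀ (q : E[X][X]) (hq : q.Monic),
      (W.filter (fun w => (q.map ι').eval (ev (φ w)) = 0)).card ≤ q.natDegree := by
    intro q hq
    have h1 : (((W.filter (fun w => (q.map ι').eval (ev (φ w)) = 0))).image
        (fun w => ev (φ w))).val ≤ (q.map ι').roots := by
      rw [Multiset.le_iff_subset (Finset.nodup _)]
      intro x hx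
      obtain ⟨w, hw, rfl⟩ := Finset.mem_image.1 hx
      exact (mem_roots (hq.map _).ne_zero).2 (Finset.mem_filter.1 hw).2
    have h2 := Multiset.card_le_card h1
    rw [← Finset.card_def, Finset.card_image_of_injOn] at h2
    · exact h2.trans ((card_roots' _).trans (hq.natDegree_map ι').le)
    · intro x hx y hy hxy
      exact hinjb (Finset.mem_filter.1 hx).1 (Finset.mem_filter.1 hy).1 hxy
  have hunion : W.card ≤ I.card + J.card := by
    refine le_trans (Finset.card_le_card (t := I ∪ J) ?_) (Finset.card_union_le _ _)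
    intro w hw
    have h1 := hrootb w hw
    rw [← hgh, Polynomial.map_mul, eval_mul, mul_eq_zero] at h1
    rw [Finset.mem_union, hI, hJ, Finset.mem_filter, Finset.mem_filter]
    rcases h1 with h1 | h1
    · exact Or.inl ⟨hw, h1⟩
    · exact Or.inr ⟨hw, h1⟩
  have hIle : I.card ≤ g.natDegree := hcardle g hg
  have hJle : J.card ≤ h.natDegree := hcardle h hh
  have hIcard : I.card = g.natDegree := by omega
  have hgprod : g.map ι' = ∏ w ∈ I, (X - C (ev (φ w))) := by
    refine eq_prod_of_roots _ (hg.map _) I (fun w => ev (φ w)) ?_ ?_ ?_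
    · intro x hx y hy hxy
      exact hinjb (Finset.mem_filter.1 hx).1 (Finset.mem_filter.1 hy).1 hxy
    · intro w hw
      exact (Finset.mem_filter.1 hw).2
    · rw [hg.natDegree_map, hIcard]
  have hgmap : g.map ι' = (∏ w ∈ I, (X - C (φ w))).map ev := by
    rw [hgprod, Polynomial.map_prod]
    refine Finset.prod_congr rfl (fun w _ => ?_)
    rw [Polynomial.map_sub, map_X, map_C]
  have hIW : I ⊆ W := Finset.filter_subset _ _
  have hIne : I.Nonempty := Finset.card_pos.1 (by omega)
  have hIneW : I ≠ W := by
    intro h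
    rw [h] at hIcard
    omega
  have hnz := hbc I hIW hIne hIneW
  have hjI := hjj I hIW hIne hIneW
  have hfbdeg : ∀ n, ((g * h).coeff n).natDegree ≤ δ := by
    intro n
    rw [hgh, hfb0, coeff_map]
    exact (natDegree_map_le).trans (hδ n)
  have hgdeg := coeff_natDegree_le_of_mul hg.ne_zero hh.ne_zero hfbdeg (nn I)
  apply hnz
  have h5 : PowerSeries.coeff (jj I) ((g.map ι').coeff (nn I)) = 0 := by
    rw [coeff_map, hι']
    simp only [Polynomial.coeToPowerSeries.ringHom_apply, Polynomial.coeff_coe]
    exact coeff_eq_zero_of_natDegree_lt (lt_of_le_of_lt hgdeg hjI)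
  rw [hgmap, coeff_map, hev, PowerSeries.coeff_map] at h5
  exact h5

end Main

end Pool.Agent.W_MP_d9e517_lc_h72
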