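import Pool.Agent.W_MP_d9e517_lc_h72.Section

/-!
# The section theorem
-/

namespace Pool.Agent.W_MP_d9e517_lc_h72

open Polynomial

section Prelim

variable {σ L K' : Type*} [Field L] [Field K'] [Algebra L K']

theorem aeval_mem_adjoin (z : σ → K') (p : MvPolynomial σ L) :
    MvPolynomial.aeval z p ∈ IntermediateField.adjoin L (Set.range z) := by
  have h1 : MvPolynomial.aeval z p ∈ Algebra.adjoin L (Set.range z) := by
    rw [Algebra.adjoin_range_eq_range_aeval]
    exact ⟨p, rfl⟩
  exact IntermediateField.algebra_adjoin_le_adjoin L (Set.range z) h1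

theorem exists_integral_mul (z : σ → K') (hz : IsTranscendenceBasis L z) (w₀ : K') :
    ∃ (d : MvPolynomial σ L) (p : (MvPolynomial σ L)[X]), MvPolynomial.aeval z d ≠ 0 ∧ p.Monic ∧
      ev L z (w₀ * MvPolynomial.aeval z d) p = 0 := by
  let _ : Algebra (MvPolynomial σ L) K' := (MvPolynomial.aeval z).toAlgebra
  have hinj : Function.Injective (algebraMap (MvPolynomial σ L) K') := hz.1
  have halg : Algebra.IsAlgebraic (Algebra.adjoin L (Set.range z)) K' := hz.isAlgebraic
  obtain ⟨p, hp0, hp⟩ := halg.isAlgebraic w₀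
  have h1 : IsAlgebraic (MvPolynomial σ L) w₀ := by
    refine ⟨p.map (hz.1.aevalEquiv.symm : Algebra.adjoin L (Set.range z) →+* MvPolynomial σ L),
      ?_, ?_⟩
    · rw [Ne, Polynomial.map_eq_zero_iff]
      · exact hp0
      · exact hz.1.aevalEquiv.symm.injective
    · rw [← hp, Polynomial.aeval_def, Polynomial.aeval_def, Polynomial.eval₂_map]
      congr 1
      refine RingHom.ext (fun y => ?_)
      have h2 : algebraMap (MvPolynomial σ L) K' (hz.1.aevalEquiv.symm y) =
        ((hz.1.aevalEquiv (hz.1.aevalEquiv.symm y) : Algebra.adjoin L (Set.range z)) : K') := by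
        rw [AlgebraicIndependent.aevalEquiv_apply_coe]
        rfl
      rw [AlgEquiv.apply_symm_apply] at h2
      exact h2
  obtain ⟨d, hd0, hd⟩ := h1.exists_integral_multiple
  obtain ⟨q, hq, hqd⟩ := hd
  refine ⟨d, q, ?_, hq, ?_⟩
  · intro h
    exact hd0 (hinj (by rw [map_zero]; exact h))
  · have : w₀ * MvPolynomial.aeval z d = d • w₀ := by
      rw [Algebra.smul_def, mul_comm]
      rfl
    rw [this]
    exact hqd

theorem isAlgebraic_of_fieldRange {F L Kb : Type*} [Field F] [Field L] [Field Kb] [Algebra F L]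
    [Algebra F Kb] [Algebra L Kb] (s : L →ₐ[F] Kb) (hs : ∀ l, algebraMap L Kb l = s l) (y : Kb)
    (h : IsAlgebraic s.fieldRange y) : IsAlgebraic L y := by
  obtain ⟨p, hp0, hp⟩ := h
  let φ : L ≃ₐ[F] s.fieldRange := AlgEquiv.ofInjectiveField s
  refine ⟨p.map (φ.symm : s.fieldRange →+* L), ?_, ?_⟩
  · rw [Ne, Polynomial.map_eq_zero_iff]
    · exact hp0
    · exact φ.symm.injective
  · rw [← hp, Polynomial.aeval_def, Polynomial.aeval_def, Polynomial.eval₂_map]
    congr 1
    refine RingHom.ext (fun u => ?_)
    have h1 : ((φ (φ.symm u) : s.fieldRange) : Kb) = s (φ.symm u) := rfl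
    rw [AlgEquiv.apply_symm_apply] at h1
    rw [RingHom.comp_apply, hs]
    exact h1.symm

end Prelim

section Core

variable {F K' : Type} [Field F] [CharZero F] [Field K'] [Algebra F K'] {n : ℕ}

theorem exists_section_core (x : Fin n → K') (T : K')
    (hgen : IntermediateField.adjoin F (insert T (Set.range x)) = ⊤)
    (htr : Algebra.trdeg F K' = n + 1)
    (L : IntermediateField F K') (hL : ∀ y : K', IsAlgebraic L y → y ∈ L)
    (hT : T ∉ L) (hLtr : 2 ≤ Algebra.trdeg L K') :
    ∃ (Kb : Type) (_ : Field Kb) (_ : Algebra F Kb) (xb : Fin n → Kb),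
      AlgebraicIndependent F xb ∧ IntermediateField.adjoin F (Set.range xb) = ⊤ ∧
      ∃ s : L →ₐ[F] Kb, (∀ y : Kb, IsAlgebraic s.fieldRange y → y ∈ s.fieldRange) ∧
        ∀ (P Q : MvPolynomial (Fin n) F) (l : L),
          (l : K') * MvPolynomial.aeval x Q = MvPolynomial.aeval x P →
            s l * MvPolynomial.aeval xb Q = MvPolynomial.aeval xb P := by
  classical
  have : CharZero K' := charZero_of_injective_algebraMap (algebraMap F K').injective
  have : CharZero L := charZero_of_injective_algebraMap (algebraMap F L).injective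
  have hL' : ∀ y : K', IsAlgebraic L y → y ∈ Set.range (algebraMap L K') :=
    fun y hy => ⟨⟨y, hL y hy⟩, rfl⟩
  -- generation over `L`
  set S : Set K' := insert T (Set.range x) with hS
  have hgenL : IntermediateField.adjoin L S = ⊤ := by
    have h1 : IntermediateField.adjoin F S ≤
        (IntermediateField.adjoin L S).restrictScalars F := by
      rw [IntermediateField.adjoin_le_iff]
      exact IntermediateField.subset_adjoin L S
    rw [hgen] at h1
    rw [eq_top_iff]
    intro y _
    exact h1 (IntermediateField.mem_top (x := y))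
  have hSfin : S.Finite := (Set.finite_range x).insert T
  -- transcendence basis
  have hTt : Transcendental L T := fun h => hT (hL T h)
  have hind : AlgebraicIndepOn L id ({T} : Set K') := by
    rw [AlgebraicIndepOn, algebraicIndependent_unique_type_iff]
    exact hTt
  have halgS : Algebra.IsAlgebraic (Algebra.adjoin L S) K' := by
    rw [← IntermediateField.isAlgebraic_adjoin_iff_top, hgenL]
    exact ⟨fun y => isAlgebraic_algebraMap (⟨y, IntermediateField.mem_top⟩ :
      (⊤ : IntermediateField L K'))⟩
  obtain ⟨B, hTB, hBS, hbasis⟩ := exists_isTranscendenceBasis_between (R := L) {T} S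
    (by rw [Set.singleton_subset_iff]; exact Set.mem_insert _ _) hind
  have hBfin : Finite B := hSfin.subset hBS
  let i₀ : B := ⟨T, hTB rfl⟩
  have hcardB : Cardinal.mk B = Algebra.trdeg L K' := hbasis.cardinalMk_eq_trdeg
  obtain ⟨i₁, hi₁⟩ : ∃ i₁ : B, i₁ ≠ i₀ := by
    rw [← hcardB] at hLtr
    exact (Cardinal.two_le_iff' i₀).1 hLtr
  set z : B → K' := fun i => (i : K') with hz
  -- primitive element
  have hzr : Set.range z = B := Subtype.range_coe
  set k₁ := IntermediateField.adjoin L (Set.range z) with hk₁
  have halg1 : Algebra.IsAlgebraic k₁ K' := hbasis.isAlgebraic_field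
  have hfin : FiniteDimensional k₁ K' := by
    have h1 : FiniteDimensional k₁ (IntermediateField.adjoin k₁ S) := by
      have : Finite S := hSfin
      exact IntermediateField.finiteDimensional_adjoin
        (fun y _ => (Algebra.IsAlgebraic.isAlgebraic y).isIntegral)
    have h2 : IntermediateField.adjoin k₁ S = ⊤ := by
      have h3 : IntermediateField.adjoin L S ≤
          (IntermediateField.adjoin k₁ S).restrictScalars L := by
        rw [IntermediateField.adjoin_le_iff]
        exact IntermediateField.subset_adjoin k₁ S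
      rw [hgenL] at h3
      rw [eq_top_iff]
      intro y _
      exact h3 (IntermediateField.mem_top (x := y))
    rw [h2] at h1
    exact Module.Finite.equiv (IntermediateField.topEquiv (F := k₁) (E := K')).toLinearEquiv
  obtain ⟨w₀, hw₀⟩ := Field.exists_primitive_element k₁ K'
  obtain ⟨d, p, hd, hp, hpw⟩ := exists_integral_mul z hbasis w₀
  set w : K' := w₀ * MvPolynomial.aeval z d with hw
  obtain ⟨f, hf, hfirr, hfw, hfmin⟩ := exists_minpoly L z hbasis.1 w p hp hpw
  have htop : IntermediateField.adjoin L (Set.range z ∪ {w}) = ⊤ := by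
    have h1 : IntermediateField.adjoin L (Set.range z ∪ {w₀}) = ⊤ := by
      rw [← IntermediateField.adjoin_adjoin_left, hw₀]
      rfl
    rw [eq_top_iff, ← h1, IntermediateField.adjoin_le_iff]
    rintro y (hy | hy)
    · exact IntermediateField.subset_adjoin L _ (Or.inl hy)
    · rw [Set.mem_singleton_iff] at hy
      subst hy
      have h2 : MvPolynomial.aeval z d ∈ IntermediateField.adjoin L (Set.range z ∪ {w}) :=
        IntermediateField.adjoin.mono L _ _ Set.subset_union_left (aeval_mem_adjoin z d)
      have h3 : w ∈ IntermediateField.adjoin L (Set.range z ∪ {w}) :=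
        IntermediateField.subset_adjoin L _ (Or.inr rfl)
      have h4 : y = w / MvPolynomial.aeval z d := by
        rw [hw]; field_simp
      rw [h4]
      exact div_mem h3 h2
  -- absolute irreducibility
  set Ω := AlgebraicClosure K' with hΩ
  set E := algebraicClosure L Ω with hE
  have hirrE : Irreducible (f.map (MvPolynomial.map (algebraMap L E))) :=
    irreducible_map_of_relClosed hL' z hbasis.1 w f hf hfw hfmin
  -- finite generation of `L`
  obtain ⟨TL, hTL⟩ := exists_finset_adjoin_eq L z w f hf hfw hfmin htop hSfin.toFinset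
    (by rw [Set.Finite.coe_toFinset]; exact hgen)
  -- fractions
  let tx : Option (Fin n) → K' := fun o => o.elim T x
  have htx : Set.range tx = S := by
    ext y
    constructor
    · rintro ⟨o, rfl⟩
      cases o with
      | none => exact Set.mem_insert _ _
      | some j => exact Set.mem_insert_of_mem _ ⟨j, rfl⟩
    · intro hy
      rcases Set.mem_insert_iff.1 hy with rfl | ⟨j, rfl⟩
      · exact ⟨none, rfl⟩
      · exact ⟨some j, rfl⟩
  have hfrac : ∀ y : K', ∃ r s : MvPolynomial (Option (Fin n)) F,
      y = MvPolynomial.aeval tx r / MvPolynomial.aeval tx s := by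
    intro y
    rw [← IntermediateField.mem_adjoin_range_iff, htx, hgen]
    trivial
  choose num den hnd using hfrac
  set G : Finset K' := Finset.univ.image x ∪ (insert w TL).image
    (fun y => MvPolynomial.aeval tx (den y)) with hG
  obtain ⟨e, he, hgood⟩ := exists_good z w f hf hfw htop G
  have he0 : e ≠ 0 := by
    rintro rfl
    simp at he
  -- the line
  have : IsAlgClosed E := isAlgClosed_algebraicClosure L Ω
  have : CharZero E := charZero_of_injective_algebraMap (algebraMap L E).injective
  let j : F →+* E := (algebraMap L E).comp (algebraMap F L)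
  have hinf : (Set.range j).Infinite := Set.infinite_range_of_injective j.injective
  have hmapinj : Function.Injective (MvPolynomial.map (σ := B) (algebraMap L E)) :=
    MvPolynomial.map_injective _ (algebraMap L E).injective
  obtain ⟨a, b, ha, hb, hea, hbe, hline⟩ := exists_line (Set.range j) hinf
    (f.map (MvPolynomial.map (algebraMap L E))) (hf.map _) hirrE
    (MvPolynomial.map (algebraMap L E) e) (MvPolynomial.X i₁)
    (by rw [Ne, map_eq_zero_iff _ hmapinj]; exact he0) (MvPolynomial.X_ne_zero _)
  choose α hα using ha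
  choose β hβ using hb
  rw [MvPolynomial.eval_X, ← hβ i₁] at hbe
  have hβ₁ : β i₁ ≠ 0 := by
    intro h
    rw [h, map_zero] at hbe
    exact hbe rfl
  set s : F := β i₀ / β i₁ with hs
  set c : F := α i₀ - s * α i₁ with hc
  let i₁' : {i : B // i ≠ i₀} := ⟨i₁, hi₁⟩
  let ψ : MvPolynomial B L →ₐ[L] MvPolynomial {i : B // i ≠ i₀} L :=
    MvPolynomial.aeval (fun i => if h : i = i₀ then
      MvPolynomial.C (algebraMap F L c) + MvPolynomial.C (algebraMap F L s) * MvPolynomial.X i₁'
      else MvPolynomial.X ⟨i, h⟩)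
  have hψ₀ : ψ (MvPolynomial.X i₀) = MvPolynomial.C (algebraMap F L c) +
      MvPolynomial.C (algebraMap F L s) * MvPolynomial.X i₁' := by
    simp only [ψ, MvPolynomial.aeval_X, dif_pos]
  have hψ₁ : ∀ i (h : i ≠ i₀), ψ (MvPolynomial.X i) = MvPolynomial.X ⟨i, h⟩ := by
    intro i h
    simp only [ψ, MvPolynomial.aeval_X, dif_neg h]
  have hcomp : (lineHom (fun i : {i : B // i ≠ i₀} => a i) (fun i => b i)).comp
      ((MvPolynomial.map (algebraMap L E)).comp ψ.toRingHom) =
      (lineHom a b).comp (MvPolynomial.map (algebraMap L E)) := by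
    apply MvPolynomial.ringHom_ext
    · intro r
      have : ψ (MvPolynomial.C r) = MvPolynomial.C r := by
        have := ψ.commutes r
        exact this
      simp only [RingHom.comp_apply, AlgHom.toRingHom_eq_coe, RingHom.coe_coe, this,
        MvPolynomial.map_C]
      simp [lineHom]
    · intro i
      simp only [RingHom.comp_apply, AlgHom.toRingHom_eq_coe, RingHom.coe_coe, MvPolynomial.map_X]
      by_cases hi : i = i₀
      · subst hi
        rw [hψ₀]
        simp only [map_add, map_mul, MvPolynomial.map_C, MvPolynomial.map_X]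
        simp only [lineHom, MvPolynomial.coe_eval₂Hom, MvPolynomial.eval₂_C, MvPolynomial.eval₂_X,
          i₁']
        have e1 : (algebraMap L E) (algebraMap F L c) = j c := rfl
        have e2 : (algebraMap L E) (algebraMap F L s) = j s := rfl
        rw [e1, e2, ← hα i₀, ← hβ i₀, ← hα i₁, ← hβ i₁]
        have e3 : j c = j (α i₀) - j s * j (α i₁) := by rw [hc, map_sub, map_mul]
        have e4 : j (β i₀) = j s * j (β i₁) := by
          rw [← map_mul, hs, div_mul_cancel₀ _ hβ₁]
        rw [e3, e4]
        simp only [C_sub, C_mul]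
        ring
      · rw [hψ₁ i hi]
        simp [lineHom]
  set fb : (MvPolynomial {i : B // i ≠ i₀} L)[X] := f.map ψ.toRingHom with hfb
  have hfbm : fb.Monic := hf.map _
  have hfbE : Irreducible (fb.map (MvPolynomial.map (algebraMap L E))) := by
    apply Polynomial.Monic.irreducible_of_irreducible_map
      (lineHom (fun i : {i : B // i ≠ i₀} => a i) (fun i => b i)) _ (hfbm.map _)
    rw [Polynomial.map_map] at hline
    rw [hfb, Polynomial.map_map, Polynomial.map_map, RingHom.comp_assoc, hcomp]
    exact hline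
  have hpos : 0 < fb.natDegree := by
    rcases Nat.eq_zero_or_pos fb.natDegree with h | h
    · have h1 := hfbm.natDegree_eq_zero.1 h
      rw [h1, Polynomial.map_one] at hfbE
      exact absurd hfbE not_irreducible_one
    · exact h
  obtain ⟨Kb, _, _, zb', wb, hzb', hwb, htopb⟩ := exists_field fb hfbm hpos
  let zb : B → Kb := fun i => if h : i = i₀ then
    algebraMap L Kb (algebraMap F L c) + algebraMap L Kb (algebraMap F L s) * zb' i₁'
    else zb' ⟨i, h⟩
  have hzb₀ : zb i₀ = algebraMap L Kb (algebraMap F L c) +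
      algebraMap L Kb (algebraMap F L s) * zb' i₁' := by
    simp only [zb, dif_pos]
  have hzb₁ : ∀ i (h : i ≠ i₀), zb i = zb' ⟨i, h⟩ := by
    intro i h
    simp only [zb, dif_neg h]
  have haevψ : ∀ q : MvPolynomial B L,
      MvPolynomial.aeval zb q = MvPolynomial.aeval zb' (ψ q) := by
    intro q
    have h1 : (MvPolynomial.aeval zb : MvPolynomial B L →ₐ[L] Kb) =
        (MvPolynomial.aeval zb').comp ψ := by
      apply MvPolynomial.algHom_ext
      intro i
      rw [AlgHom.comp_apply, MvPolynomial.aeval_X]
      by_cases hi : i = i₀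
      · subst hi
        rw [hψ₀, hzb₀, map_add, map_mul, MvPolynomial.aeval_C, MvPolynomial.aeval_C,
          MvPolynomial.aeval_X]
      · rw [hψ₁ i hi, hzb₁ i hi, MvPolynomial.aeval_X]
    rw [h1]
    rfl
  have hevb : ∀ g : (MvPolynomial B L)[X], ev L zb wb g = ev L zb' wb (g.map ψ.toRingHom) := by
    intro g
    unfold ev
    rw [Polynomial.coe_eval₂RingHom, Polynomial.coe_eval₂RingHom, Polynomial.eval₂_map]
    exact congrArg (fun φ => Polynomial.eval₂ φ wb g) (RingHom.ext fun q => haevψ q)
  have hker : ∀ g, ev L z w g = 0 → ev L zb wb g = 0 := by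
    intro g hg
    obtain ⟨q, rfl⟩ := hfmin g hg
    rw [map_mul, hevb f, hwb, zero_mul]
  have hψe : ψ e ≠ 0 := by
    intro h0
    apply hea
    have h1 := congrArg (fun φ : MvPolynomial B L →+* E[X] => φ e) hcomp
    simp only [RingHom.comp_apply, AlgHom.toRingHom_eq_coe, RingHom.coe_coe, h0, map_zero] at h1
    have h2 := congrArg (fun φ : MvPolynomial B E →+* E => φ (MvPolynomial.map (algebraMap L E) e))
      (evalZero_comp_lineHom a b)
    simp only [RingHom.comp_apply] at h2
    rw [← h2, ← h1, map_zero]
  have heb : MvPolynomial.aeval zb e ≠ 0 := by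
    rw [haevψ]
    intro h0
    exact hψe (hzb' (by rw [map_zero]; exact h0))
  have hgoodb := hgood Kb _ _ zb wb hker heb
  -- the images of the generators
  have hxex : ∀ i : Fin n, ∃ y : Kb, Rel L z w zb wb (x i) y := by
    intro i
    obtain ⟨y, hy, -⟩ := hgoodb (x i)
      (Finset.mem_union_left _ (Finset.mem_image_of_mem x (Finset.mem_univ i)))
    exact ⟨y, hy⟩
  choose xb hxb using hxex
  let _ : Algebra F Kb := ((algebraMap L Kb).comp (algebraMap F L)).toAlgebra
  have htower : IsScalarTower F L Kb := IsScalarTower.of_algebraMap_eq (fun _ => rfl)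
  let tb : Option (Fin n) → Kb := fun o => o.elim (zb i₀) xb
  have htb : ∀ o, Rel L z w zb wb (tx o) (tb o) := by
    intro o
    cases o with
    | none => exact Rel.gen (z := z) (w := w) (zb := zb) (wb := wb) i₀
    | some i => exact hxb i
  set K₀ : IntermediateField F Kb := IntermediateField.adjoin F (Set.range xb) with hK₀
  have hxK₀ : ∀ i, xb i ∈ K₀ := fun i => IntermediateField.subset_adjoin F _ ⟨i, rfl⟩
  have hzK₁ : ∀ i, i ≠ i₀ → zb i ∈ K₀ := by
    intro i hi
    have h1 : (i : K') ∈ S := hBS i.2
    rcases Set.mem_insert_iff.1 h1 with h2 | ⟨k, hk⟩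
    · exact absurd (Subtype.ext h2) hi
    · have h3 : Rel L z w zb wb (x k) (zb i) := by
        rw [hk]
        exact Rel.gen i
      rw [← Rel.unique hker (hxb k) h3]
      exact hxK₀ k
  have hzK₀ : zb i₀ ∈ K₀ := by
    have h1 := hzK₁ i₁ hi₁
    rw [hzb₁ i₁ hi₁] at h1
    rw [hzb₀]
    refine add_mem (K₀.algebraMap_mem c) (mul_mem (K₀.algebraMap_mem s) h1)
  have htK₀ : ∀ o, tb o ∈ K₀ := by
    intro o
    cases o with
    | none => exact hzK₀
    | some i => exact hxK₀ i
  have haevK₀ : ∀ P : MvPolynomial (Option (Fin n)) F, MvPolynomial.aeval tb P ∈ K₀ := by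
    intro P
    have h1 := aeval_mem_adjoin tb P
    refine (IntermediateField.adjoin_le_iff.2 ?_) h1
    rintro _ ⟨o, rfl⟩
    exact htK₀ o
  have hkey : ∀ y ∈ insert w TL, ∀ yb : Kb, Rel L z w zb wb y yb → yb ∈ K₀ := by
    intro y hy yb hyb
    obtain ⟨q, hq1, hq2⟩ := hgoodb (MvPolynomial.aeval tx (den y))
      (Finset.mem_union_right _ (Finset.mem_image_of_mem _ hy))
    have hq3 : q = MvPolynomial.aeval tb (den y) := Rel.unique hker hq1 (Rel.aeval htb _)
    by_cases hd0 : MvPolynomial.aeval tx (den y) = 0
    · have h1 := hnd y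
      rw [hd0, div_zero] at h1
      rw [h1] at hyb
      have h2 : Rel L z w zb wb (0 : K') (0 : Kb) := by
        have := Rel.of_ev (z := z) (w := w) (zb := zb) (wb := wb) (0 : (MvPolynomial B L)[X])
        simpa using this
      rw [Rel.unique hker hyb h2]
      exact zero_mem _
    · have hq4 := hq2 hd0
      rw [hq3] at hq4
      have h1 : y * MvPolynomial.aeval tx (den y) = MvPolynomial.aeval tx (num y) :=
        ((div_eq_iff hd0).1 (hnd y).symm).symm
      have h2 : Rel L z w zb wb (y * MvPolynomial.aeval tx (den y))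
        (yb * MvPolynomial.aeval tb (den y)) := hyb.mul (Rel.aeval htb _)
      rw [h1] at h2
      have h3 := Rel.unique hker h2 (Rel.aeval htb (num y))
      have h4 : yb = MvPolynomial.aeval tb (num y) / MvPolynomial.aeval tb (den y) := by
        rw [← h3, mul_div_cancel_right₀ _ hq4]
      rw [h4]
      exact div_mem (haevK₀ _) (haevK₀ _)
  have hwK₀ : wb ∈ K₀ := hkey w (Finset.mem_insert_self _ _) wb Rel.gen'
  let sL : L →ₐ[F] Kb := IsScalarTower.toAlgHom F L Kb
  have hLK₀ : ∀ l : L, algebraMap L Kb l ∈ K₀ := by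
    intro l
    have h1 : L ≤ (K₀.comap sL).map L.val := by
      conv_lhs => rw [← hTL]
      rw [IntermediateField.adjoin_le_iff]
      intro y hy
      have hyL : y ∈ L := by
        rw [← hTL]
        exact IntermediateField.subset_adjoin F _ hy
      refine ⟨⟨y, hyL⟩, ?_, rfl⟩
      exact hkey y (Finset.mem_insert_of_mem hy) _ (Rel.algebraMap (⟨y, hyL⟩ : L))
    obtain ⟨l', hl', hll'⟩ := h1 l.2
    have : l' = l := Subtype.ext hll'
    rw [← this]
    exact hl'
  have hK₀top : K₀ = ⊤ := by
    let K₁ : IntermediateField L Kb := K₀.toSubfield.toIntermediateField hLK₀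
    have h1 : IntermediateField.adjoin L (Set.range zb' ∪ {wb}) ≤ K₁ := by
      rw [IntermediateField.adjoin_le_iff]
      rintro y (⟨i, rfl⟩ | hy)
      · have := hzK₁ i.1 i.2
        rw [hzb₁ i.1 i.2] at this
        exact this
      · rw [Set.mem_singleton_iff] at hy
        rw [hy]
        exact hwK₀
    rw [htopb] at h1
    rw [eq_top_iff]
    intro y _
    exact h1 (IntermediateField.mem_top (x := y))
  refine ⟨Kb, inferInstance, inferInstance, xb, ?_, hK₀top, sL, ?_, ?_⟩
  · -- transcendence degree
    have h1 : Algebra.trdeg F L + Algebra.trdeg L K' = Algebra.trdeg F K' :=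
      trdeg_add_eq F L
    have h2 : Algebra.trdeg F L + Algebra.trdeg L Kb = Algebra.trdeg F Kb :=
      trdeg_add_eq F L
    have h3 : Cardinal.mk {i : B // i ≠ i₀} ≤ Algebra.trdeg L Kb :=
      hzb'.cardinalMk_le_trdeg
    have h4 : Cardinal.mk B = Cardinal.mk {i : B // i ≠ i₀} + 1 := by
      rw [← Cardinal.mk_option]
      exact Cardinal.mk_congr (Equiv.optionSubtypeNe i₀).symm
    have h5 : Algebra.trdeg F L + Cardinal.mk {i : B // i ≠ i₀} = n := by
      rw [htr, ← hcardB, h4, ← add_assoc] at h1
      exact Cardinal.add_one_inj.1 h1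
    have h6 : Cardinal.mk (Fin n) ≤ Algebra.trdeg F Kb := by
      rw [Cardinal.mk_fin, ← h5, ← h2]
      gcongr
    have h7 : Algebra.IsAlgebraic (Algebra.adjoin F (Set.range xb)) Kb := by
      rw [← IntermediateField.isAlgebraic_adjoin_iff_top, ← hK₀, hK₀top]
      exact ⟨fun y => isAlgebraic_algebraMap (⟨y, IntermediateField.mem_top⟩ :
        (⊤ : IntermediateField F Kb))⟩
    exact (Algebra.IsAlgebraic.isTranscendenceBasis_of_le_trdeg_of_finite F xb h6).1
  · have hirr' := irreducible_transport' (Ω := Ω) (Ω' := AlgebraicClosure Kb) fb hfbE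
    have hclosed := relClosed_of_irreducible (L := L) (K' := Kb) zb' hzb' wb fb hfbm hwb htopb hirr'
    intro y hy
    have h1 : IsAlgebraic L y := isAlgebraic_of_fieldRange sL (fun _ => rfl) y hy
    obtain ⟨l, hl⟩ := hclosed y h1
    exact ⟨l, hl⟩
  · intro P Q l hPQ
    have h1 : Rel L z w zb wb ((l : K') * MvPolynomial.aeval x Q)
      (algebraMap L Kb l * MvPolynomial.aeval xb Q) :=
      (Rel.algebraMap l).mul (Rel.aeval hxb Q)
    rw [hPQ] at h1
    exact Rel.unique hker h1 (Rel.aeval hxb P)

end Core

end Pool.Agent.W_MP_d9e517_lc_h72
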