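import Pool.Agent.W_MP_d9e517_lc_h72.Logic

/-!
# Local relations are exactly the properties of the pair (relative closure of `F(x)`, `x`)
-/

namespace Pool.Agent.W_MP_d9e517_lc_h72

open FirstOrder FirstOrder.Language

section

variable {F : Type} [Field F]

theorem map_cl {K K' : Type} [Field K] [Algebra F K] [Field K'] [Algebra F K']
    (g : K →ₐ[F] K') (hg : RelClosed g.fieldRange) {ι : Type} (u : ι → K) :
    (cl (F := F) u).map g = cl (F := F) (fun i => g (u i)) := by
  have h4 : (IntermediateField.adjoin F (Set.range u)).map g =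
      IntermediateField.adjoin F (Set.range (fun i => g (u i))) := by
    rw [IntermediateField.adjoin_map, ← Set.range_comp]
    rfl
  apply le_antisymm
  · rintro _ ⟨c, hc, rfl⟩
    have h1 : IsAlgebraic (IntermediateField.adjoin F (Set.range u)) c :=
      mem_algebraicClosure_iff.1 hc
    have h2 : IsAlgebraic (IntermediateField.adjoin F (Set.range (fun i => g (u i)))) (g c) := by
      refine isAlgebraic_transport _ _ g ?_ c h1
      intro v hv
      rw [← h4]
      exact ⟨v, hv, rfl⟩
    exact mem_algebraicClosure_iff.2 h2
  · intro c hc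
    have h1 : IsAlgebraic (IntermediateField.adjoin F (Set.range (fun i => g (u i)))) c :=
      mem_algebraicClosure_iff.1 hc
    have h2 : IsAlgebraic g.fieldRange c := by
      have hle : IntermediateField.adjoin F (Set.range (fun i => g (u i))) ≤ g.fieldRange := by
        rw [IntermediateField.adjoin_le_iff]
        rintro _ ⟨i, rfl⟩
        exact ⟨u i, rfl⟩
      exact isAlgebraic_transport _ _ (AlgHom.id F K') (fun v hv => hle hv) c h1
    obtain ⟨c', rfl⟩ := hg c h2
    refine ⟨c', ?_, rfl⟩
    have h3 : IsAlgebraic ((IntermediateField.adjoin F (Set.range u)).map g) (g c') := by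
      rw [h4]; exact h1
    exact mem_algebraicClosure_iff.2 (isAlgebraic_of_map _ g c' h3)

/-- Every isomorphism-invariant property of the pair (relative algebraic closure of `F(x)`, `x`)
is a local relation. -/
noncomputable def LocalRel.ofClosure {ι : Type}
    (P : ∀ (M : Type) [Field M] [Algebra F M], (ι → M) → Prop)
    (hP : ∀ (M M' : Type) [Field M] [Algebra F M] [Field M'] [Algebra F M'] (e : M ≃ₐ[F] M')
      (u : ι → M), P M u ↔ P M' (fun i => e (u i))) : LocalRel F ι where
  holds := fun K _ _ x => P (cl (F := F) x) (fun i => ⟨x i, mem_cl x i⟩)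
  invariant := by
    intro K K' _ _ _ _ M M' hM hM' e u
    have key : ∀ (K₁ : Type) [Field K₁] [Algebra F K₁] (g : M →ₐ[F] K₁)
        (hg : RelClosed g.fieldRange) (v : ι → K₁) (hv : ∀ i, v i = g (u i)),
        P (cl (F := F) u) (fun i => ⟨u i, mem_cl u i⟩) ↔
          P (cl (F := F) v) (fun i => ⟨v i, mem_cl v i⟩) := by
      intro K₁ _ _ g hg v hv
      have hv' : v = fun i => g (u i) := funext hv
      subst hv'
      let e₁ : cl (F := F) u ≃ₐ[F] cl (F := F) (fun i => g (u i)) :=
        ((cl (F := F) u).equivMap g).trans (IntermediateField.equivOfEq (map_cl g hg u))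
      exact hP _ _ e₁ _
    have h1 := key K M.val (by rw [IntermediateField.fieldRange_val]; exact hM)
      (fun i => (u i : K)) (fun i => rfl)
    have h2 := key K' (M'.val.comp (e : M →ₐ[F] M')) (by
      have h3 : (M'.val.comp (e : M →ₐ[F] M')).fieldRange = M' := by
        apply le_antisymm
        · rintro _ ⟨c, rfl⟩
          exact (e c).2
        · intro c hc
          exact ⟨e.symm ⟨c, hc⟩, by
            change ((e (e.symm ⟨c, hc⟩) : M') : K') = c
            rw [AlgEquiv.apply_symm_apply]⟩
      rw [h3]
      exact hM') (fun i => (e (u i) : K')) (fun i => rfl)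
    exact h1.symm.trans h2

end

section Ring

/-- The inclusion of the language of rings. -/
def ringLHom (F : Type) [Field F] : FirstOrder.Language.ring →ᴸ locLang F where
  onFunction := fun _ f => f
  onRelation := fun _ r => r.elim

/-- Truth of a sentence of the language of rings in `F(t_1, ..., t_n)`. -/
def RingSat (F : Type) [Field F] (n : ℕ) (θ : FirstOrder.Language.ring.Sentence) : Prop :=
  letI := FirstOrder.Ring.compatibleRingOfRing (RF F n)
  RF F n ⊨ θ

variable (F : Type) [Field F]

theorem ringSat_iff (n : ℕ) (θ : FirstOrder.Language.ring.Sentence) :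
    RingSat F n θ ↔ (RF F n ⊨ (ringLHom F).onSentence θ) := by
  let _ := FirstOrder.Ring.compatibleRingOfRing (RF F n)
  have : (ringLHom F).IsExpansionOn (RF F n) := by
    constructor
    · intro k f x
      cases f
      · exact (FirstOrder.Ring.CompatibleRing.funMap_add x).symm
      · exact (FirstOrder.Ring.CompatibleRing.funMap_mul x).symm
      · exact (FirstOrder.Ring.CompatibleRing.funMap_neg x).symm
      · exact (FirstOrder.Ring.CompatibleRing.funMap_zero x).symm
      · exact (FirstOrder.Ring.CompatibleRing.funMap_one x).symm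
    · intro k r
      exact r.elim
  exact (LHom.realize_onSentence (RF F n) (ringLHom F) θ).symm

variable {F}

theorem isQF_onBoundedFormula {n : ℕ} {φ : FirstOrder.Language.ring.BoundedFormula Empty n}
    (h : φ.IsQF) : ((ringLHom F).onBoundedFormula φ).IsQF := by
  induction h with
  | falsum => exact BoundedFormula.IsQF.falsum
  | of_isAtomic h =>
    cases h with
    | equal t₁ t₂ => exact (BoundedFormula.IsAtomic.equal _ _).isQF
    | rel R ts => exact R.elim
  | imp _ _ ih₁ ih₂ => exact ih₁.imp ih₂

theorem isPi1_onBoundedFormula {n : ℕ} {φ : FirstOrder.Language.ring.BoundedFormula Empty n}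
    (h : IsPi1 φ) : IsPi1 ((ringLHom F).onBoundedFormula φ) := by
  induction h with
  | of_isQF h => exact IsPi1.of_isQF (isQF_onBoundedFormula h)
  | all _ ih => exact IsPi1.all ih

theorem isSigma2_onBoundedFormula {n : ℕ} {φ : FirstOrder.Language.ring.BoundedFormula Empty n}
    (h : IsSigma2 φ) : IsSigma2 ((ringLHom F).onBoundedFormula φ) := by
  induction h with
  | of_isPi1 h => exact IsSigma2.of_isPi1 (isPi1_onBoundedFormula h)
  | ex _ ih => exact IsSigma2.ex ih

theorem isBoolSigma2_onSentence {φ : FirstOrder.Language.ring.Sentence}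
    (h : IsBoolSigma2 φ) : IsBoolSigma2 ((ringLHom F).onSentence φ) := by
  induction h with
  | of_isSigma2 h => exact IsBoolSigma2.of_isSigma2 (isSigma2_onBoundedFormula h)
  | falsum => exact IsBoolSigma2.falsum
  | imp _ _ ih₁ ih₂ => exact IsBoolSigma2.imp ih₁ ih₂

end Ring

end Pool.Agent.W_MP_d9e517_lc_h72
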