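import Pool.Agent.W_MP_d9e517_lc_h72.Transfer

/-!
# Local relations and the monotonicity of `∃∀`-statements
-/

namespace Pool.Agent.W_MP_d9e517_lc_h72

/-- A local relation (of arity `ι`) on field extensions of `F`: a property of tuples which is
invariant under `F`-isomorphisms between relatively algebraically closed subfields, i.e. which only
depends on the isomorphism type over `F` of the pair (relative algebraic closure of `F(x)` in `K`,
`x`). -/
structure LocalRel (F : Type) [Field F] (ι : Type) : Type 1 where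
  /-- The relation, for every field extension `K` of `F`. -/
  holds : ∀ (K : Type) [Field K] [Algebra F K], (ι → K) → Prop
  invariant : ∀ (K K' : Type) [Field K] [Algebra F K] [Field K'] [Algebra F K']
    (M : IntermediateField F K) (M' : IntermediateField F K'), RelClosed M → RelClosed M' →
    ∀ (e : M ≃ₐ[F] M') (u : ι → M),
      holds K (fun i => (u i : K)) ↔ holds K' (fun i => (e (u i) : K'))

open Polynomial in
theorem isAlgebraic_of_map {F K K' : Type} [Field F] [Field K] [Field K'] [Algebra F K]
    [Algebra F K'] (M : IntermediateField F K) (e : K →ₐ[F] K') (y : K)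
    (hy : IsAlgebraic (M.map e) (e y)) : IsAlgebraic M y := by
  obtain ⟨p, hp0, hp⟩ := hy
  let φ : M ≃ₐ[F] M.map e := M.equivMap e
  refine ⟨p.map (φ.symm : M.map e →+* M), ?_, ?_⟩
  · rw [Ne, Polynomial.map_eq_zero_iff]
    · exact hp0
    · exact φ.symm.injective
  · have h1 : e (aeval y (p.map (φ.symm : M.map e →+* M))) = aeval (e y) p := by
      rw [Polynomial.aeval_def, Polynomial.aeval_def, Polynomial.eval₂_map]
      have h2 := Polynomial.hom_eval₂ p ((algebraMap M K).comp (φ.symm : M.map e →+* M))
        (e : K →+* K') y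
      have h3 : (e : K →+* K').comp ((algebraMap M K).comp (φ.symm : M.map e →+* M)) =
          algebraMap (M.map e) K' := by
        refine RingHom.ext (fun u => ?_)
        have h4 : ((φ (φ.symm u) : M.map e) : K') = e ((φ.symm u : M) : K) := rfl
        rw [AlgEquiv.apply_symm_apply] at h4
        exact h4.symm
      rw [h3] at h2
      exact h2
    rw [hp] at h1
    exact (map_eq_zero e).1 h1

section Closure

variable {F K : Type} [Field F] [Field K] [Algebra F K]

/-- The relative algebraic closure of `F(x)` in `K`. -/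
noncomputable def cl {ι : Type} (x : ι → K) : IntermediateField F K :=
  (algebraicClosure (IntermediateField.adjoin F (Set.range x)) K).restrictScalars F

theorem mem_cl {ι : Type} (x : ι → K) (i : ι) : x i ∈ cl (F := F) x := by
  have h1 : x i ∈ IntermediateField.adjoin F (Set.range x) :=
    IntermediateField.subset_adjoin F _ ⟨i, rfl⟩
  have h2 : IsAlgebraic (IntermediateField.adjoin F (Set.range x)) (x i) :=
    isAlgebraic_algebraMap (⟨x i, h1⟩ : IntermediateField.adjoin F (Set.range x))
  exact mem_algebraicClosure_iff.2 h2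

theorem relClosed_cl {ι : Type} (x : ι → K) : RelClosed (cl (F := F) x) := by
  intro y hy
  set A := IntermediateField.adjoin F (Set.range x) with hA
  have h1 : IsAlgebraic (algebraicClosure A K) y := hy
  have h2 : IsAlgebraic A y := h1.restrictScalars A
  exact mem_algebraicClosure_iff.2 h2

theorem trdeg_cl_le {ι : Type} [Finite ι] (x : ι → K) :
    Algebra.trdeg F (cl (F := F) x) ≤ Cardinal.mk ι := by
  set L := cl (F := F) x with hL
  let x' : ι → L := fun i => ⟨x i, mem_cl x i⟩
  have h1 : Algebra.IsAlgebraic (IntermediateField.adjoin F (Set.range x')) L := by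
    constructor
    intro y
    have h2 : IsAlgebraic (IntermediateField.adjoin F (Set.range x)) (y : K) :=
      mem_algebraicClosure_iff.1 y.2
    apply isAlgebraic_of_map _ L.val y
    have h4 : (IntermediateField.adjoin F (Set.range x')).map L.val =
        IntermediateField.adjoin F (Set.range x) := by
      rw [IntermediateField.adjoin_map, ← Set.range_comp]
      rfl
    rw [h4]
    exact h2
  have h3 : Algebra.IsAlgebraic (Algebra.adjoin F (Set.range x')) L :=
    IntermediateField.isAlgebraic_adjoin_iff_top.1 h1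
  exact (Algebra.IsAlgebraic.trdeg_le_cardinalMk F (Set.range x')).trans Cardinal.mk_range_le

end Closure

section Mono

variable {F : Type} [Field F] [CharZero F] {α β : Type} [Finite α] [Finite β]

/-- Going up: if `x ∈ F(t_1..t_n)` satisfies a universal statement, so does its image in
`F(t_1..t_{n+1})`, provided `n` is larger than the number of variables. -/
theorem forall_up (ρ : LocalRel F (α ⊕ β)) (n : ℕ) (hn : Nat.card α + Nat.card β + 1 ≤ n)
    (x : α → RF F n) (h : ∀ y : β → RF F n, ρ.holds (RF F n) (Sum.elim x y))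
    (y : β → RF F (n + 1)) :
    ρ.holds (RF F (n + 1)) (Sum.elim (fun i => up F n (x i)) y) := by
  set v : α ⊕ β → RF F (n + 1) := Sum.elim (fun i => up F n (x i)) y with hv
  set L : IntermediateField F (RF F (n + 1)) := cl v with hL
  have hLc : RelClosed L := relClosed_cl v
  have htr : 2 ≤ Algebra.trdeg L (RF F (n + 1)) := by
    have h1 : Algebra.trdeg F L + Algebra.trdeg L (RF F (n + 1)) = ((n + 1 : ℕ) : Cardinal) := by
      rw [trdeg_add_eq, trdeg_RF]
    have h2 : Algebra.trdeg F L ≤ Cardinal.mk (α ⊕ β) := trdeg_cl_le v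
    rw [Cardinal.mk_sum, Cardinal.lift_id, Cardinal.lift_id, ← Nat.cast_card, ← Nat.cast_card,
      ← Nat.cast_add] at h2
    obtain ⟨a, ha⟩ := Cardinal.lt_aleph0.1 (h2.trans_lt (Cardinal.natCast_lt_aleph0))
    have h3 : Algebra.trdeg L (RF F (n + 1)) ≤ ((n + 1 : ℕ) : Cardinal) := by
      rw [← h1]; exact self_le_add_left _ _
    obtain ⟨b, hb⟩ := Cardinal.lt_aleph0.1 (h3.trans_lt (Cardinal.natCast_lt_aleph0))
    rw [ha] at h2
    rw [ha, hb] at h1
    rw [hb]
    norm_cast at h1 h2 ⊢
    omega
  obtain ⟨s, hs, hsy⟩ := section_RF F n L hLc htr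
  let e : L ≃ₐ[F] s.fieldRange := AlgEquiv.ofInjectiveField s
  let u : α ⊕ β → L := fun i => ⟨v i, mem_cl v i⟩
  have h1 := ρ.invariant (RF F (n + 1)) (RF F n) L s.fieldRange hLc hs e u
  have h2 : (fun i => ((e (u i) : s.fieldRange) : RF F n)) =
      Sum.elim x (fun j => s (u (Sum.inr j))) := by
    funext i
    cases i with
    | inl i => exact hsy (u (Sum.inl i)) (x i) rfl
    | inr j => rfl
  rw [h2] at h1
  exact h1.2 (h _)

/-- The truth value in `F(t_1..t_n)` of the statement `∃ x ∀ y, ρ(x, y)`. -/
def ExAll (ρ : LocalRel F (α ⊕ β)) (n : ℕ) : Prop :=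
  ∃ x : α → RF F n, ∀ y : β → RF F n, ρ.holds (RF F n) (Sum.elim x y)

theorem ExAll.succ (ρ : LocalRel F (α ⊕ β)) (n : ℕ) (hn : Nat.card α + Nat.card β + 1 ≤ n)
    (h : ExAll ρ n) : ExAll ρ (n + 1) := by
  obtain ⟨x, hx⟩ := h
  exact ⟨fun i => up F n (x i), forall_up ρ n hn x hx⟩

theorem ExAll.eventually (ρ : LocalRel F (α ⊕ β)) :
    ∃ N, ∀ m n, N ≤ m → N ≤ n → (ExAll ρ m ↔ ExAll ρ n) := by
  have hmono : ∀ m n, Nat.card α + Nat.card β + 1 ≤ m → m ≤ n → ExAll ρ m → ExAll ρ n := by
    intro m n hm hmn h
    induction n, hmn using Nat.le_induction with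
    | base => exact h
    | succ n hmn ih => exact ExAll.succ ρ n (hm.trans hmn) ih
  by_cases hex : ∃ m, Nat.card α + Nat.card β + 1 ≤ m ∧ ExAll ρ m
  · obtain ⟨m₀, hm₀, h₀⟩ := hex
    refine ⟨m₀, fun m n hm hn => ⟨fun _ => hmono m₀ n hm₀ hn h₀, fun _ => hmono m₀ m hm₀ hm h₀⟩⟩
  · push Not at hex
    exact ⟨_, fun m n hm hn => ⟨fun h => absurd h (hex m hm), fun h => absurd h (hex n hn)⟩⟩

end Mono

end Pool.Agent.W_MP_d9e517_lc_h72
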