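import Pool.Agent.W_MP_d9e517_lc_h72.Local

/-!
# First-order sentences with local relation symbols
-/

namespace Pool.Agent.W_MP_d9e517_lc_h72

open FirstOrder FirstOrder.Language

/-- The language of rings together with a relation symbol for every local relation over `F`. -/
def locLang (F : Type) [Field F] : FirstOrder.Language.{0, 1} where
  Functions := ringFunc
  Relations := fun k => LocalRel F (Fin k)

/-- Every field extension of `F` is a structure: the function symbols are the ring operations and
the relation symbols are interpreted by themselves. -/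
instance locStructure (F K : Type) [Field F] [Field K] [Algebra F K] : (locLang F).Structure K where
  funMap := fun {n} (f : ringFunc n) =>
    match n, f with
    | _, .add => fun v => v 0 + v 1
    | _, .mul => fun v => v 0 * v 1
    | _, .neg => fun v => -v 0
    | _, .zero => fun _ => 0
    | _, .one => fun _ => 1
  RelMap := fun {k} (R : LocalRel F (Fin k)) x => R.holds K x

universe u v

/-- Prenex universal formulas. -/
inductive IsPi1 {L : FirstOrder.Language.{u, v}} : ∀ {n : ℕ}, L.BoundedFormula Empty n → Prop
  | of_isQF {n : ℕ} {φ : L.BoundedFormula Empty n} (h : φ.IsQF) : IsPi1 φ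
  | all {n : ℕ} {φ : L.BoundedFormula Empty (n + 1)} (h : IsPi1 φ) : IsPi1 φ.all

/-- Prenex `∃∀`-formulas. -/
inductive IsSigma2 {L : FirstOrder.Language.{u, v}} : ∀ {n : ℕ}, L.BoundedFormula Empty n → Prop
  | of_isPi1 {n : ℕ} {φ : L.BoundedFormula Empty n} (h : IsPi1 φ) : IsSigma2 φ
  | ex {n : ℕ} {φ : L.BoundedFormula Empty (n + 1)} (h : IsSigma2 φ) : IsSigma2 φ.ex

/-- Boolean combinations of `∃∀`-sentences. -/
inductive IsBoolSigma2 {L : FirstOrder.Language.{u, v}} : L.Sentence → Prop
  | of_isSigma2 {φ : L.Sentence} (h : IsSigma2 φ) : IsBoolSigma2 φ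
  | falsum : IsBoolSigma2 BoundedFormula.falsum
  | imp {φ ψ : L.Sentence} (h₁ : IsBoolSigma2 φ) (h₂ : IsBoolSigma2 ψ) :
      IsBoolSigma2 (BoundedFormula.imp φ ψ)

/-- Substituting variables in a local relation. -/
def LocalRel.comap {F : Type} [Field F] {ι κ : Type} (h : ι → κ) (ρ : LocalRel F ι) :
    LocalRel F κ where
  holds := fun K _ _ v => ρ.holds K (fun i => v (h i))
  invariant := fun K K' _ _ _ _ M M' hM hM' e u =>
    ρ.invariant K K' M M' hM hM' e (fun i => u (h i))

section Terms

variable {F K K' : Type} [Field F] [Field K] [Field K'] [Algebra F K] [Algebra F K']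

theorem realize_term_map {α : Type} (t : (locLang F).Term α) (g : K →+* K') (v : α → K) :
    t.realize (fun i => g (v i)) = g (t.realize v) := by
  induction t with
  | var i => rfl
  | func f ts ih =>
    simp only [Term.realize]
    have h1 : (fun i => (ts i).realize (fun i => g (v i))) = fun i => g ((ts i).realize v) :=
      funext ih
    rw [h1]
    cases f
    · exact (map_add g _ _).symm
    · exact (map_mul g _ _).symm
    · exact (map_neg g _).symm
    · exact (map_zero g).symm
    · exact (map_one g).symm

end Terms

section QF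

variable {F : Type} [Field F]

theorem realize_qf_invariant {m : ℕ} {φ : (locLang F).BoundedFormula Empty m} (hφ : φ.IsQF)
    (K K' : Type) [Field K] [Algebra F K] [Field K'] [Algebra F K']
    (M : IntermediateField F K) (M' : IntermediateField F K') (hM : RelClosed M)
    (hM' : RelClosed M') (e : M ≃ₐ[F] M') (u : Fin m → M) :
    φ.Realize (default : Empty → K) (fun i => (u i : K)) ↔
      φ.Realize (default : Empty → K') (fun i => (e (u i) : K')) := by
  have key1 : ∀ t : (locLang F).Term (Empty ⊕ Fin m),
      t.realize (Sum.elim (default : Empty → K) (fun i => (u i : K))) =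
        ((t.realize (Sum.elim (default : Empty → M) u) : M) : K) := by
    intro t
    have h1 := realize_term_map t (algebraMap M K) (Sum.elim (default : Empty → M) u)
    have h2 : (fun i => (algebraMap M K) (Sum.elim (default : Empty → M) u i)) =
        Sum.elim (default : Empty → K) (fun i => (u i : K)) := by
      funext i
      cases i with
      | inl i => exact i.elim
      | inr i => rfl
    rw [h2] at h1
    exact h1
  have key2 : ∀ t : (locLang F).Term (Empty ⊕ Fin m),
      t.realize (Sum.elim (default : Empty → K') (fun i => (e (u i) : K'))) =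
        ((e (t.realize (Sum.elim (default : Empty → M) u)) : M') : K') := by
    intro t
    have h1 := realize_term_map t ((algebraMap M' K').comp (e : M →+* M'))
      (Sum.elim (default : Empty → M) u)
    have h2 : (fun i => ((algebraMap M' K').comp (e : M →+* M'))
        (Sum.elim (default : Empty → M) u i)) =
        Sum.elim (default : Empty → K') (fun i => (e (u i) : K')) := by
      funext i
      cases i with
      | inl i => exact i.elim
      | inr i => rfl
    rw [h2] at h1
    exact h1
  induction hφ with
  | falsum => exact Iff.rfl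
  | of_isAtomic h =>
    cases h with
    | equal t₁ t₂ =>
      rw [BoundedFormula.realize_bdEqual, BoundedFormula.realize_bdEqual, key1, key1, key2, key2]
      constructor
      · intro h
        rw [Subtype.ext h]
      · intro h
        rw [e.injective (Subtype.ext h)]
    | rel R ts =>
      rw [BoundedFormula.realize_rel, BoundedFormula.realize_rel]
      simp only [key1, key2]
      exact LocalRel.invariant R K K' M M' hM hM' e _
  | imp _ _ ih₁ ih₂ =>
    rw [BoundedFormula.realize_imp, BoundedFormula.realize_imp]
    exact imp_congr ih₁ ih₂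

/-- The local relation defined by a quantifier-free formula. -/
def qfRel {m : ℕ} {φ : (locLang F).BoundedFormula Empty m} (hφ : φ.IsQF) :
    LocalRel F (Fin m) where
  holds := fun K _ _ v => φ.Realize (default : Empty → K) v
  invariant := fun K K' _ _ _ _ M M' hM hM' e u =>
    realize_qf_invariant hφ K K' M M' hM hM' e u

theorem exists_of_isPi1 {m : ℕ} {φ : (locLang F).BoundedFormula Empty m} (hφ : IsPi1 φ) :
    ∃ (β : Type) (_ : Finite β) (ρ : LocalRel F (Fin m ⊕ β)),
      ∀ (K : Type) [Field K] [Algebra F K] (xs : Fin m → K),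
        φ.Realize (default : Empty → K) xs ↔ ∀ y : β → K, ρ.holds K (Sum.elim xs y) := by
  induction hφ with
  | of_isQF h =>
    refine ⟨Empty, inferInstance, (qfRel h).comap Sum.inl, fun K _ _ xs => ?_⟩
    constructor
    · intro h1 y
      exact h1
    · intro h1
      exact h1 default
  | @all n φ h ih =>
    obtain ⟨β, _, ρ, hρ⟩ := ih
    let f : Fin (n + 1) ⊕ β → Fin n ⊕ Option β := Sum.elim
      (Fin.lastCases (motive := fun _ => Fin n ⊕ Option β) (Sum.inr none) Sum.inl)
      (fun b => Sum.inr (some b))
    refine ⟨Option β, inferInstance, ρ.comap f, fun K _ _ xs => ?_⟩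
    have hf : ∀ (y : Option β → K), (fun i => Sum.elim xs y (f i)) =
        Sum.elim (Fin.snoc xs (y none) : Fin (n + 1) → K) (fun b => y (some b)) := by
      intro y
      funext i
      cases i with
      | inl i =>
        refine Fin.lastCases ?_ (fun j => ?_) i
        · simp [f]
        · simp [f]
      | inr b => rfl
    rw [BoundedFormula.realize_all]
    constructor
    · intro h1 y
      have h2 := (hρ K (Fin.snoc xs (y none))).1 (h1 (y none)) (fun b => y (some b))
      rw [← hf y] at h2
      exact h2
    · intro h1 a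
      rw [hρ]
      intro y
      have h2 := h1 (fun o => o.elim a y)
      change ρ.holds K (fun i => Sum.elim xs (fun o => o.elim a y) (f i)) at h2
      rw [hf] at h2
      exact h2

theorem exists_of_isSigma2 {m : ℕ} {φ : (locLang F).BoundedFormula Empty m} (hφ : IsSigma2 φ) :
    ∃ (α β : Type) (_ : Finite α) (_ : Finite β) (ρ : LocalRel F ((Fin m ⊕ α) ⊕ β)),
      ∀ (K : Type) [Field K] [Algebra F K] (xs : Fin m → K),
        φ.Realize (default : Empty → K) xs ↔
          ∃ x : α → K, ∀ y : β → K, ρ.holds K (Sum.elim (Sum.elim xs x) y) := by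
  induction hφ with
  | @of_isPi1 n φ h =>
    obtain ⟨β, _, ρ, hρ⟩ := exists_of_isPi1 h
    let f : Fin n ⊕ β → (Fin n ⊕ Empty) ⊕ β := Sum.map Sum.inl id
    refine ⟨Empty, β, inferInstance, inferInstance, ρ.comap f, fun K _ _ xs => ?_⟩
    have hf : ∀ (x : Empty → K) (y : β → K), (fun i => Sum.elim (Sum.elim xs x) y (f i)) =
        Sum.elim xs y := by
      intro x y
      funext i
      cases i <;> rfl
    rw [hρ]
    constructor
    · intro h1
      refine ⟨default, fun y => ?_⟩
      change ρ.holds K (fun i => Sum.elim (Sum.elim xs default) y (f i))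
      rw [hf]
      exact h1 y
    · rintro ⟨x, hx⟩ y
      have h2 := hx y
      change ρ.holds K (fun i => Sum.elim (Sum.elim xs x) y (f i)) at h2
      rw [hf] at h2
      exact h2
  | @ex n φ h ih =>
    obtain ⟨α, β, _, _, ρ, hρ⟩ := ih
    let f : (Fin (n + 1) ⊕ α) ⊕ β → (Fin n ⊕ Option α) ⊕ β := Sum.map (Sum.elim
      (Fin.lastCases (motive := fun _ => Fin n ⊕ Option α) (Sum.inr none) Sum.inl)
      (fun b => Sum.inr (some b))) id
    refine ⟨Option α, β, inferInstance, inferInstance, ρ.comap f, fun K _ _ xs => ?_⟩
    have hf : ∀ (x : Option α → K) (y : β → K),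
        (fun i => Sum.elim (Sum.elim xs x) y (f i)) =
        Sum.elim (Sum.elim (Fin.snoc xs (x none) : Fin (n + 1) → K) (fun b => x (some b))) y := by
      intro x y
      funext i
      cases i with
      | inl i =>
        cases i with
        | inl i =>
          refine Fin.lastCases ?_ (fun j => ?_) i
          · simp [f]
          · simp [f]
        | inr b => rfl
      | inr b => rfl
    rw [BoundedFormula.realize_ex]
    constructor
    · rintro ⟨a, ha⟩
      rw [hρ] at ha
      obtain ⟨x, hx⟩ := ha
      refine ⟨fun o => o.elim a x, fun y => ?_⟩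
      change ρ.holds K (fun i => Sum.elim (Sum.elim xs (fun o => o.elim a x)) y (f i))
      rw [hf]
      exact hx y
    · rintro ⟨x, hx⟩
      refine ⟨x none, ?_⟩
      rw [hρ]
      refine ⟨fun b => x (some b), fun y => ?_⟩
      have h2 := hx y
      change ρ.holds K (fun i => Sum.elim (Sum.elim xs x) y (f i)) at h2
      rw [hf] at h2
      exact h2

end QF

section Final

variable {F : Type} [Field F] [CharZero F]

theorem eventually_of_isSigma2 {φ : (locLang F).Sentence} (hφ : IsSigma2 φ) :
    ∃ N, ∀ m n, N ≤ m → N ≤ n → ((RF F m ⊨ φ) ↔ (RF F n ⊨ φ)) := by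
  obtain ⟨α, β, _, _, ρ, hρ⟩ := exists_of_isSigma2 hφ
  obtain ⟨N, hN⟩ := ExAll.eventually ρ
  refine ⟨N, fun m n hm hn => ?_⟩
  have h1 : ∀ n, (RF F n ⊨ φ) ↔ ExAll ρ n := by
    intro n
    have h2 : (RF F n ⊨ φ) ↔ _ :=
      (iff_of_eq (congrArg₂ (BoundedFormula.Realize φ) (Subsingleton.elim _ _)
        (Subsingleton.elim _ _))).trans (hρ (RF F n) (default : Fin 0 → RF F n))
    rw [h2]
    constructor
    · rintro ⟨x, hx⟩
      exact ⟨Sum.elim default x, hx⟩
    · rintro ⟨x, hx⟩
      refine ⟨fun a => x (Sum.inr a), fun y => ?_⟩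
      have h3 : Sum.elim (default : Fin 0 → RF F n) (fun a => x (Sum.inr a)) = x := by
        funext i
        cases i with
        | inl i => exact i.elim0
        | inr i => rfl
      rw [h3]
      exact hx y
  rw [h1, h1]
  exact hN m n hm hn

theorem eventually_of_isBoolSigma2 {φ : (locLang F).Sentence} (hφ : IsBoolSigma2 φ) :
    ∃ N, ∀ m n, N ≤ m → N ≤ n → ((RF F m ⊨ φ) ↔ (RF F n ⊨ φ)) := by
  induction hφ with
  | of_isSigma2 h => exact eventually_of_isSigma2 h
  | falsum => exact ⟨0, fun m n _ _ => Iff.rfl⟩
  | imp _ _ ih₁ ih₂ =>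
    obtain ⟨N₁, h₁⟩ := ih₁
    obtain ⟨N₂, h₂⟩ := ih₂
    refine ⟨max N₁ N₂, fun m n hm hn => ?_⟩
    have h3 := h₁ m n ((le_max_left _ _).trans hm) ((le_max_left _ _).trans hn)
    have h4 := h₂ m n ((le_max_right _ _).trans hm) ((le_max_right _ _).trans hn)
    exact imp_congr h3 h4

end Final

end Pool.Agent.W_MP_d9e517_lc_h72
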