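import Pool.Agent.W_MP_d9e517_lc_h72.Bertini
import Pool.Agent.W_MP_d9e517_lc_h72.AbsIrred

/-!
# Sections: specialising one variable without losing a relatively closed subfield
-/

namespace Pool.Agent.W_MP_d9e517_lc_h72

open Polynomial

section Rel

variable {σ K' Kb : Type*} (L : Type*) [Field L] [Field K'] [Algebra L K'] [Field Kb] [Algebra L Kb]

/-- The graph of the specialisation `(z, w) ↦ (zb, wb)`. -/
def Rel (z : σ → K') (w : K') (zb : σ → Kb) (wb : Kb) (y : K') (a : Kb) : Prop :=
  ∃ g h : (MvPolynomial σ L)[X], ev L zb wb h ≠ 0 ∧ y * ev L z w h = ev L z w g ∧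
    a * ev L zb wb h = ev L zb wb g

variable {L} {z : σ → K'} {w : K'} {zb : σ → Kb} {wb : Kb}

theorem Rel.of_ev (g : (MvPolynomial σ L)[X]) : Rel L z w zb wb (ev L z w g) (ev L zb wb g) :=
  ⟨g, 1, by simp, by simp, by simp⟩

theorem Rel.algebraMap (l : L) : Rel L z w zb wb (algebraMap L K' l) (algebraMap L Kb l) := by
  have := Rel.of_ev (z := z) (w := w) (zb := zb) (wb := wb) (C (MvPolynomial.C l) :
    (MvPolynomial σ L)[X])
  simpa using this

theorem Rel.gen (i : σ) : Rel L z w zb wb (z i) (zb i) := by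
  have := Rel.of_ev (z := z) (w := w) (zb := zb) (wb := wb) (C (MvPolynomial.X i) :
    (MvPolynomial σ L)[X])
  simpa using this

theorem Rel.gen' : Rel L z w zb wb w wb := by
  have := Rel.of_ev (z := z) (w := w) (zb := zb) (wb := wb) (X : (MvPolynomial σ L)[X])
  simpa using this

theorem Rel.add {y y' : K'} {a a' : Kb} (h : Rel L z w zb wb y a) (h' : Rel L z w zb wb y' a') :
    Rel L z w zb wb (y + y') (a + a') := by
  obtain ⟨g, h, h1, h2, h3⟩ := h
  obtain ⟨g', h', h1', h2', h3'⟩ := h'
  refine ⟨g * h' + g' * h, h * h', ?_, ?_, ?_⟩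
  · rw [map_mul]; exact mul_ne_zero h1 h1'
  · rw [map_mul, map_add, map_mul, map_mul, ← h2, ← h2']; ring
  · rw [map_mul, map_add, map_mul, map_mul, ← h3, ← h3']; ring

theorem Rel.mul {y y' : K'} {a a' : Kb} (h : Rel L z w zb wb y a) (h' : Rel L z w zb wb y' a') :
    Rel L z w zb wb (y * y') (a * a') := by
  obtain ⟨g, h, h1, h2, h3⟩ := h
  obtain ⟨g', h', h1', h2', h3'⟩ := h'
  refine ⟨g * g', h * h', ?_, ?_, ?_⟩
  · rw [map_mul]; exact mul_ne_zero h1 h1'
  · rw [map_mul, map_mul, ← h2, ← h2']; ring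
  · rw [map_mul, map_mul, ← h3, ← h3']; ring

theorem Rel.unique (hker : ∀ g, ev L z w g = 0 → ev L zb wb g = 0) {y : K'} {a a' : Kb}
    (h : Rel L z w zb wb y a) (h' : Rel L z w zb wb y a') : a = a' := by
  obtain ⟨g, h, h1, h2, h3⟩ := h
  obtain ⟨g', h', h1', h2', h3'⟩ := h'
  have h4 : ev L z w (g * h' - g' * h) = 0 := by
    rw [map_sub, map_mul, map_mul, ← h2, ← h2']; ring
  have h5 := hker _ h4
  rw [map_sub, map_mul, map_mul, ← h3, ← h3'] at h5
  have h6 : (a - a') * (ev L zb wb h * ev L zb wb h') = 0 := by linear_combination h5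
  rcases mul_eq_zero.1 h6 with h7 | h7
  · exact sub_eq_zero.1 h7
  · exact absurd h7 (mul_ne_zero h1 h1')

theorem Rel.aeval {F τ : Type*} [Field F] [Algebra F L] [Algebra F K'] [Algebra F Kb]
    [IsScalarTower F L K'] [IsScalarTower F L Kb] {x : τ → K'} {xb : τ → Kb}
    (hx : ∀ i, Rel L z w zb wb (x i) (xb i)) (P : MvPolynomial τ F) :
    Rel L z w zb wb (MvPolynomial.aeval x P) (MvPolynomial.aeval xb P) := by
  induction P using MvPolynomial.induction_on with
  | C c =>
    rw [MvPolynomial.aeval_C, MvPolynomial.aeval_C, IsScalarTower.algebraMap_apply F L K',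
      IsScalarTower.algebraMap_apply F L Kb]
    exact Rel.algebraMap _
  | add p q hp hq => rw [map_add, map_add]; exact hp.add hq
  | mul_X p i hp => rw [map_mul, map_mul, MvPolynomial.aeval_X, MvPolynomial.aeval_X]
                    exact hp.mul (hx i)

end Rel

section Good

variable {σ K' L : Type*} [Field L] [Field K'] [Algebra L K']

theorem exists_good (z : σ → K') (w : K') (f : (MvPolynomial σ L)[X]) (hf : f.Monic)
    (hfw : ev L z w f = 0) (htop : IntermediateField.adjoin L (Set.range z ∪ {w}) = ⊤)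
    (S : Finset K') :
    ∃ e : MvPolynomial σ L, MvPolynomial.aeval z e ≠ 0 ∧
      ∀ (Kb : Type) (_ : Field Kb) (_ : Algebra L Kb) (zb : σ → Kb) (wb : Kb),
        (∀ g, ev L z w g = 0 → ev L zb wb g = 0) → MvPolynomial.aeval zb e ≠ 0 →
          ∀ y ∈ S, ∃ a : Kb, Rel L z w zb wb y a ∧ (y ≠ 0 → a ≠ 0) := by
  classical
  induction S using Finset.induction_on with
  | empty => exact ⟨1, by simp, by simp⟩
  | insert y S hyS ih =>
    obtain ⟨e, he, h⟩ := ih
    obtain ⟨A, e₁, he₁, -, hA⟩ := exists_repr z w f hf hfw y (by rw [htop]; trivial)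
    obtain ⟨A', e₂, he₂, -, hA'⟩ := exists_repr z w f hf hfw y⁻¹ (by rw [htop]; trivial)
    refine ⟨e * (e₁ * e₂), ?_, ?_⟩
    · rw [map_mul, map_mul]
      exact mul_ne_zero he (mul_ne_zero he₁ he₂)
    intro Kb _ _ zb wb hker hne y' hy'
    rw [map_mul, map_mul] at hne
    have hne0 := left_ne_zero_of_mul hne
    have hne1 := left_ne_zero_of_mul (right_ne_zero_of_mul hne)
    have hne2 := right_ne_zero_of_mul (right_ne_zero_of_mul hne)
    rcases Finset.mem_insert.1 hy' with rfl | hy'
    · have hr1 : Rel L z w zb wb y' (ev L zb wb A / MvPolynomial.aeval zb e₁) := by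
        refine ⟨A, C e₁, ?_, ?_, ?_⟩
        · rwa [ev_C]
        · rw [ev_C, hA]
        · rw [ev_C, div_mul_cancel₀ _ hne1]
      have hr2 : Rel L z w zb wb y'⁻¹ (ev L zb wb A' / MvPolynomial.aeval zb e₂) := by
        refine ⟨A', C e₂, ?_, ?_, ?_⟩
        · rwa [ev_C]
        · rw [ev_C, hA']
        · rw [ev_C, div_mul_cancel₀ _ hne2]
      refine ⟨_, hr1, fun hy0 h0 => ?_⟩
      have h1 := hr1.mul hr2
      rw [mul_inv_cancel₀ hy0, h0, zero_mul] at h1
      have h2 : Rel L z w zb wb (1 : K') (1 : Kb) := by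
        have := Rel.of_ev (z := z) (w := w) (zb := zb) (wb := wb) (1 : (MvPolynomial σ L)[X])
        simpa using this
      exact zero_ne_one (Rel.unique hker h1 h2)
    · exact h Kb _ _ zb wb hker hne0 y' hy'

end Good

section ExistsField

variable {σ' L : Type} [Field L]

theorem exists_field (fb : (MvPolynomial σ' L)[X]) (hfb : fb.Monic) (hpos : 0 < fb.natDegree) :
    ∃ (Kb : Type) (_ : Field Kb) (_ : Algebra L Kb) (zb : σ' → Kb) (wb : Kb),
      AlgebraicIndependent L zb ∧ ev L zb wb fb = 0 ∧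
        IntermediateField.adjoin L (Set.range zb ∪ {wb}) = ⊤ := by
  classical
  let Q := FractionRing (MvPolynomial σ' L)
  let Ω := AlgebraicClosure Q
  let zΩ : σ' → Ω := fun i => algebraMap (MvPolynomial σ' L) Ω (MvPolynomial.X i)
  have hinj : Function.Injective (algebraMap (MvPolynomial σ' L) Ω) := by
    rw [IsScalarTower.algebraMap_eq (MvPolynomial σ' L) Q Ω]
    exact (algebraMap Q Ω).injective.comp (IsFractionRing.injective _ _)
  have haev : ∀ p : MvPolynomial σ' L, MvPolynomial.aeval zΩ p = algebraMap _ Ω p := by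
    intro p
    have h1 : (MvPolynomial.aeval zΩ : MvPolynomial σ' L →ₐ[L] Ω) =
        IsScalarTower.toAlgHom L (MvPolynomial σ' L) Ω := by
      apply MvPolynomial.algHom_ext
      intro i
      simp [zΩ]
    rw [h1]
    rfl
  have hzΩ : AlgebraicIndependent L zΩ := by
    intro p q hpq
    rw [haev, haev] at hpq
    exact hinj hpq
  obtain ⟨wΩ, hwΩ⟩ := IsAlgClosed.exists_root (fb.map (algebraMap (MvPolynomial σ' L) Ω)) (by
    rw [hfb.degree_map]
    intro h
    rw [Polynomial.degree_eq_natDegree hfb.ne_zero] at h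
    have : fb.natDegree = 0 := by exact_mod_cast h
    omega)
  have hwΩ' : ev L zΩ wΩ fb = 0 := by
    unfold ev
    rw [Polynomial.coe_eval₂RingHom]
    rw [Polynomial.IsRoot, Polynomial.eval_map] at hwΩ
    rw [← hwΩ]
    exact congrArg (fun φ => Polynomial.eval₂ φ wΩ fb) (RingHom.ext fun p => haev p)
  set Kb := IntermediateField.adjoin L (Set.range zΩ ∪ {wΩ}) with hKb
  have hmem : ∀ y ∈ Set.range zΩ ∪ {wΩ}, y ∈ Kb := fun y hy =>
    IntermediateField.subset_adjoin L _ hy
  let zb : σ' → Kb := fun i => ⟨zΩ i, hmem _ (Or.inl ⟨i, rfl⟩)⟩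
  let wb : Kb := ⟨wΩ, hmem _ (Or.inr rfl)⟩
  have hev : ∀ g : (MvPolynomial σ' L)[X], ((ev L zb wb g : Kb) : Ω) = ev L zΩ wΩ g := by
    intro g
    have h1 : ((ev L zb wb g : Kb) : Ω) = algebraMap Kb Ω (ev L zb wb g) := rfl
    rw [h1]
    unfold ev
    rw [Polynomial.coe_eval₂RingHom, Polynomial.coe_eval₂RingHom, Polynomial.hom_eval₂]
    congr 1
    apply MvPolynomial.ringHom_ext
    · intro r
      simp [← IsScalarTower.algebraMap_apply L Kb Ω]
    · intro i
      simp [zb]
  refine ⟨Kb, inferInstance, inferInstance, zb, wb, ?_, ?_, ?_⟩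
  · exact AlgebraicIndependent.of_comp (Kb.val) hzΩ
  · apply Subtype.ext
    rw [hev, hwΩ']
    rfl
  · rw [eq_top_iff]
    intro y _
    have h1 : (y : Ω) ∈ (IntermediateField.adjoin L (Set.range zb ∪ {wb})).map Kb.val := by
      rw [IntermediateField.adjoin_map]
      have h2 : Kb.val '' (Set.range zb ∪ {wb}) = Set.range zΩ ∪ {wΩ} := by
        rw [Set.image_union, Set.image_singleton, ← Set.range_comp]
        rfl
      rw [h2]
      exact y.2
    obtain ⟨y', hy', hyy'⟩ := h1
    have : y' = y := Subtype.ext hyy'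
    rw [← this]
    exact hy'

end ExistsField


section FG

variable {σ F K' : Type*} [Field F] [Field K'] [Algebra F K']

/-- Finite generation of `L`. -/
theorem exists_finset_adjoin_eq (L : IntermediateField F K') (z : σ → K') (w : K')
    (f : (MvPolynomial σ L)[X]) (hf : f.Monic) (hfw : ev L z w f = 0)
    (hfmin : ∀ g, ev L z w g = 0 → f ∣ g)
    (htop : IntermediateField.adjoin L (Set.range z ∪ {w}) = ⊤)
    (S : Finset K') (hS : IntermediateField.adjoin F (S : Set K') = ⊤) :
    ∃ T : Finset K', IntermediateField.adjoin F (T : Set K') = L := by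
  classical
  -- every element of `S` is in `F(T, z, w)` for a finite `T ⊆ L`
  have htopF : IntermediateField.adjoin F ((L : Set K') ∪ (Set.range z ∪ {w})) = ⊤ := by
    rw [← IntermediateField.restrictScalars_adjoin, htop]
    rfl
  have h1 : ∀ y : K', ∃ T : Finset K', (T : Set K') ⊆ (L : Set K') ∪ (Set.range z ∪ {w}) ∧
      y ∈ IntermediateField.adjoin F (T : Set K') := by
    intro y
    have : y ∈ IntermediateField.adjoin F ((L : Set K') ∪ (Set.range z ∪ {w})) := by
      rw [htopF]; trivial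
    exact IntermediateField.exists_finset_of_mem_adjoin this
  choose T hT1 hT2 using h1
  let T₁ : Finset K' := (S.biUnion T).filter (fun y => y ∈ L)
  let T₂ : Finset K' := f.support.biUnion (fun n => (f.coeff n).support.image
    (fun m => (((f.coeff n).coeff m : L) : K')))
  let T₀ : Finset K' := T₁ ∪ T₂
  have hT₀L : (T₀ : Set K') ⊆ L := by
    intro y hy
    rcases Finset.mem_union.1 (Finset.mem_coe.1 hy) with hy | hy
    · exact (Finset.mem_filter.1 hy).2
    · obtain ⟨n, -, hn⟩ := Finset.mem_biUnion.1 hy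
      obtain ⟨m, -, rfl⟩ := Finset.mem_image.1 hn
      exact ((f.coeff n).coeff m).2
  refine ⟨T₀, ?_⟩
  set L₀ := IntermediateField.adjoin F (T₀ : Set K') with hL₀
  have hle : L₀ ≤ L := IntermediateField.adjoin_le_iff.2 hT₀L
  refine le_antisymm hle ?_
  let _ : Algebra L₀ L := (IntermediateField.inclusion hle).toRingHom.toAlgebra
  have : IsScalarTower L₀ L K' := IsScalarTower.of_algebraMap_eq (fun x => rfl)
  -- lift `f`
  have hlift : f ∈ Polynomial.lifts (MvPolynomial.map (σ := σ) (algebraMap L₀ L)) := by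
    rw [Polynomial.lifts_iff_coeff_lifts]
    intro n
    rw [MvPolynomial.mem_range_map_iff_coeffs_subset]
    intro c hc
    obtain ⟨m, hm, rfl⟩ := MvPolynomial.mem_coeffs_iff.1 hc
    have h2 : (((f.coeff n).coeff m : L) : K') ∈ T₀ := by
      refine Finset.mem_union_right _ (Finset.mem_biUnion.2 ⟨n, ?_, Finset.mem_image.2 ⟨m, hm, rfl⟩⟩)
      rw [Polynomial.mem_support_iff]
      intro h0
      rw [h0] at hm
      simp at hm
    refine ⟨⟨_, IntermediateField.subset_adjoin F _ h2⟩, ?_⟩
    apply Subtype.ext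
    rfl
  obtain ⟨f₀, hf₀1, hf₀2, hf₀3⟩ := Polynomial.lifts_and_natDegree_eq_and_monic hlift hf
  have hf₀w : ev L₀ z w f₀ = 0 := by
    rw [← ev_map L₀ (k' := L), hf₀1, hfw]
  have htop₀ : IntermediateField.adjoin L₀ (Set.range z ∪ {w}) = ⊤ := by
    have h3 : IntermediateField.adjoin F (S : Set K') ≤
        (IntermediateField.adjoin L₀ (Set.range z ∪ {w})).restrictScalars F := by
      rw [IntermediateField.adjoin_le_iff]
      intro y hy
      have h4 : IntermediateField.adjoin F (T y : Set K') ≤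
        (IntermediateField.adjoin L₀ (Set.range z ∪ {w})).restrictScalars F := by
        rw [IntermediateField.adjoin_le_iff]
        intro t ht
        by_cases htL : t ∈ L
        · have h5 : t ∈ T₀ := Finset.mem_union_left _ (Finset.mem_filter.2
            ⟨Finset.mem_biUnion.2 ⟨y, hy, ht⟩, htL⟩)
          have h6 : t ∈ L₀ := IntermediateField.subset_adjoin F _ h5
          exact (IntermediateField.adjoin L₀ (Set.range z ∪ {w})).algebraMap_mem ⟨t, h6⟩
        · rcases hT1 y ht with h5 | h5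
          · exact absurd h5 htL
          · exact IntermediateField.subset_adjoin L₀ _ h5
      exact h4 (hT2 y)
    rw [hS] at h3
    rw [eq_top_iff]
    intro y _
    exact h3 (IntermediateField.mem_top (x := y))
  intro u hu
  obtain ⟨v, hv⟩ := mem_range_of_mem_adjoin (k := L₀) (k' := L) z w f₀ hf₀3 hf₀w (by
    intro g hg hdeg
    by_contra hne
    have h6 := hfmin g hg
    have h7 := Polynomial.natDegree_le_of_dvd h6 hne
    omega) ⟨u, hu⟩ (by rw [htop₀]; trivial)
  have h8 := congrArg (fun c : L => (c : K')) hv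
  have h9 : ((v : L₀) : K') = u := h8
  rw [← h9]
  exact v.2

end FG

end Pool.Agent.W_MP_d9e517_lc_h72
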