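import Pool.Agent.W_MP_d9e517_lc_h72.Core

/-!
# The fields `F(t_1, ..., t_n)`
-/

namespace Pool.Agent.W_MP_d9e517_lc_h72

open Polynomial

/-- The field of rational functions in `n` variables. -/
abbrev RF (F : Type) [Field F] (n : ℕ) : Type := FractionRing (MvPolynomial (Fin n) F)

/-- Relatively algebraically closed intermediate fields. -/
def RelClosed {F K : Type} [Field F] [Field K] [Algebra F K] (M : IntermediateField F K) : Prop :=
  ∀ y : K, IsAlgebraic M y → y ∈ M

section

variable {F K' : Type} [Field F] [CharZero F] [Field K'] [Algebra F K'] {n : ℕ}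

theorem exists_section (x : Fin n → K') (T : K')
    (hgen : IntermediateField.adjoin F (insert T (Set.range x)) = ⊤)
    (htr : Algebra.trdeg F K' = n + 1)
    (L : IntermediateField F K') (hL : RelClosed L) (hLtr : 2 ≤ Algebra.trdeg L K') :
    ∃ (Kb : Type) (_ : Field Kb) (_ : Algebra F Kb) (xb : Fin n → Kb),
      AlgebraicIndependent F xb ∧ IntermediateField.adjoin F (Set.range xb) = ⊤ ∧
      ∃ s : L →ₐ[F] Kb, RelClosed s.fieldRange ∧
        ∀ (P Q : MvPolynomial (Fin n) F) (l : L),
          (l : K') * MvPolynomial.aeval x Q = MvPolynomial.aeval x P →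
            s l * MvPolynomial.aeval xb Q = MvPolynomial.aeval xb P := by
  by_cases hT : T ∈ L
  · obtain ⟨j, hj⟩ : ∃ j, x j ∉ L := by
      by_contra hcon
      push Not at hcon
      have h1 : IntermediateField.adjoin F (insert T (Set.range x)) ≤ L := by
        rw [IntermediateField.adjoin_le_iff]
        rintro y (rfl | ⟨j, rfl⟩)
        · exact hT
        · exact hcon j
      rw [hgen, top_le_iff] at h1
      have h2 : Algebra.IsAlgebraic L K' := by
        rw [h1]
        exact ⟨fun y => isAlgebraic_algebraMap (⟨y, IntermediateField.mem_top⟩ :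
          (⊤ : IntermediateField F K'))⟩
      rw [trdeg_eq_zero_iff.2 h2] at hLtr
      exact absurd hLtr (by simp)
    refine exists_section_core x (T + x j) ?_ htr L hL ?_ hLtr
    · rw [eq_top_iff, ← hgen, IntermediateField.adjoin_le_iff]
      rintro y (rfl | ⟨i, rfl⟩)
      · have h1 : y + x j ∈ IntermediateField.adjoin F (insert (y + x j) (Set.range x)) :=
          IntermediateField.subset_adjoin F _ (Set.mem_insert _ _)
        have h2 : x j ∈ IntermediateField.adjoin F (insert (y + x j) (Set.range x)) :=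
          IntermediateField.subset_adjoin F _ (Set.mem_insert_of_mem _ ⟨j, rfl⟩)
        have h3 : y = (y + x j) - x j := by ring
        rw [h3]
        exact sub_mem (by simpa using h1) (by simpa using h2)
      · exact IntermediateField.subset_adjoin F _ (Set.mem_insert_of_mem _ ⟨i, rfl⟩)
    · intro h
      exact hj (by
        have := L.sub_mem h hT
        rwa [add_sub_cancel_left] at this)
  · exact exists_section_core x T hgen htr L hL hT hLtr

end

theorem isAlgebraic_transport {F K K' : Type} [Field F] [Field K] [Field K'] [Algebra F K]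
    [Algebra F K'] (M : IntermediateField F K) (M' : IntermediateField F K') (e : K →ₐ[F] K')
    (h : ∀ u ∈ M, e u ∈ M') (y : K) (hy : IsAlgebraic M y) : IsAlgebraic M' (e y) := by
  obtain ⟨p, hp0, hp⟩ := hy
  let φ : M →+* M' := ((e : K →+* K').comp (algebraMap M K)).codRestrict M' (fun u => h _ u.2)
  refine ⟨p.map φ, ?_, ?_⟩
  · rw [Ne, Polynomial.map_eq_zero_iff]
    · exact hp0
    · exact φ.injective
  · have h1 := congrArg (e : K →+* K') hp
    rw [map_zero, Polynomial.aeval_def, Polynomial.hom_eval₂] at h1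
    rw [Polynomial.aeval_def, Polynomial.eval₂_map]
    exact h1

section RF

variable (F : Type) [Field F]

/-- The variables. -/
noncomputable def gen (n : ℕ) (i : Fin n) : RF F n :=
  algebraMap (MvPolynomial (Fin n) F) (RF F n) (MvPolynomial.X i)

theorem aeval_gen (n : ℕ) (p : MvPolynomial (Fin n) F) :
    MvPolynomial.aeval (gen F n) p = algebraMap (MvPolynomial (Fin n) F) (RF F n) p := by
  have h1 : (MvPolynomial.aeval (gen F n) : MvPolynomial (Fin n) F →ₐ[F] RF F n) =
      IsScalarTower.toAlgHom F (MvPolynomial (Fin n) F) (RF F n) := by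
    apply MvPolynomial.algHom_ext
    intro i
    simp [gen]
  rw [h1]
  rfl

theorem algebraicIndependent_gen (n : ℕ) : AlgebraicIndependent F (gen F n) := by
  intro p q hpq
  rw [aeval_gen, aeval_gen] at hpq
  exact IsFractionRing.injective (MvPolynomial (Fin n) F) (RF F n) hpq

theorem exists_frac (n : ℕ) (y : RF F n) : ∃ P Q : MvPolynomial (Fin n) F, Q ≠ 0 ∧
    y * MvPolynomial.aeval (gen F n) Q = MvPolynomial.aeval (gen F n) P := by
  obtain ⟨P, Q, hQ, rfl⟩ := IsFractionRing.div_surjective (A := MvPolynomial (Fin n) F) y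
  have hQ0 : Q ≠ 0 := nonZeroDivisors.ne_zero hQ
  refine ⟨P, Q, hQ0, ?_⟩
  rw [aeval_gen, aeval_gen, div_mul_cancel₀]
  intro h
  exact hQ0 (IsFractionRing.injective (MvPolynomial (Fin n) F) (RF F n) (by rw [h, map_zero]))

theorem adjoin_gen (n : ℕ) : IntermediateField.adjoin F (Set.range (gen F n)) = ⊤ := by
  rw [eq_top_iff]
  intro y _
  obtain ⟨P, Q, hQ, hy⟩ := exists_frac F n y
  have h0 : MvPolynomial.aeval (gen F n) Q ≠ 0 := by
    intro h
    exact hQ ((algebraicIndependent_gen F n) (by rw [map_zero]; exact h))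
  have h1 : y = MvPolynomial.aeval (gen F n) P / MvPolynomial.aeval (gen F n) Q := by
    rw [← hy, mul_div_cancel_right₀ _ h0]
  rw [h1]
  exact div_mem (aeval_mem_adjoin _ _) (aeval_mem_adjoin _ _)

theorem trdeg_RF (n : ℕ) : Algebra.trdeg F (RF F n) = n := by
  have h7 : Algebra.IsAlgebraic (Algebra.adjoin F (Set.range (gen F n))) (RF F n) := by
    rw [← IntermediateField.isAlgebraic_adjoin_iff_top, adjoin_gen]
    exact ⟨fun y => isAlgebraic_algebraMap (⟨y, IntermediateField.mem_top⟩ :
      (⊤ : IntermediateField F (RF F n)))⟩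
  have h8 : IsTranscendenceBasis F (gen F n) :=
    (algebraicIndependent_gen F n).isTranscendenceBasis_iff_isAlgebraic.2 h7
  rw [← h8.cardinalMk_eq_trdeg, Cardinal.mk_fin]

/-- The embedding `F(t_1..t_n) → F(t_1..t_{n+1})`. -/
noncomputable def up (n : ℕ) : RF F n →ₐ[F] RF F (n + 1) :=
  IsFractionRing.liftAlgHom (A := MvPolynomial (Fin n) F) (K := RF F n)
    (g := (IsScalarTower.toAlgHom F (MvPolynomial (Fin (n + 1)) F) (RF F (n + 1))).comp
      (MvPolynomial.rename Fin.castSucc))
    ((IsFractionRing.injective (MvPolynomial (Fin (n + 1)) F) (RF F (n + 1))).comp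
      (MvPolynomial.rename_injective _ (Fin.castSucc_injective n)))

theorem up_gen (n : ℕ) (i : Fin n) : up F n (gen F n i) = gen F (n + 1) i.castSucc := by
  unfold up gen
  rw [IsFractionRing.liftAlgHom_apply, IsFractionRing.lift_algebraMap]
  simp

theorem RF_generated (n : ℕ) : IntermediateField.adjoin F
    (insert (gen F (n + 1) (Fin.last n)) (Set.range (fun i => up F n (gen F n i)))) = ⊤ := by
  rw [eq_top_iff, ← adjoin_gen F (n + 1), IntermediateField.adjoin_le_iff]
  rintro _ ⟨i, rfl⟩
  refine IntermediateField.subset_adjoin F _ ?_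
  refine Fin.lastCases ?_ (fun j => ?_) i
  · exact Set.mem_insert _ _
  · exact Set.mem_insert_of_mem _ ⟨j, up_gen F n j⟩

variable [CharZero F]

/-- **Section theorem** for rational function fields. -/
theorem section_RF (n : ℕ) (L : IntermediateField F (RF F (n + 1))) (hL : RelClosed L)
    (hLtr : 2 ≤ Algebra.trdeg L (RF F (n + 1))) :
    ∃ s : L →ₐ[F] RF F n, RelClosed s.fieldRange ∧
      ∀ (l : L) (y : RF F n), up F n y = l → s l = y := by
  obtain ⟨Kb, _, _, xb, hxb, htop, s, hs, hPQ⟩ := exists_section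
    (fun i => up F n (gen F n i)) (gen F (n + 1) (Fin.last n)) (RF_generated F n)
    (by rw [trdeg_RF]; push_cast; rfl) L hL hLtr
  let e : RF F n ≃ₐ[F] Kb := (hxb.aevalEquivField).trans
    ((IntermediateField.equivOfEq htop).trans IntermediateField.topEquiv)
  have he : ∀ P : MvPolynomial (Fin n) F, e (MvPolynomial.aeval (gen F n) P) =
      MvPolynomial.aeval xb P := by
    intro P
    rw [aeval_gen]
    exact hxb.aevalEquivField_algebraMap_apply_coe P
  let σ : L →ₐ[F] RF F n := (e.symm : Kb →ₐ[F] RF F n).comp s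
  have hσ : ∀ l, σ l = e.symm (s l) := fun l => rfl
  refine ⟨σ, ?_, ?_⟩
  · intro y hy
    have h1 : IsAlgebraic s.fieldRange (e y) := by
      refine isAlgebraic_transport σ.fieldRange s.fieldRange (e : RF F n →ₐ[F] Kb) ?_ y hy
      rintro _ ⟨l, rfl⟩
      refine ⟨l, ?_⟩
      have h2 : (e : RF F n →ₐ[F] Kb) (σ l) = e (e.symm (s l)) := rfl
      have h3 : (e : RF F n →ₐ[F] Kb) (σ l) = s l := by rw [h2, AlgEquiv.apply_symm_apply]
      exact h3.symm
    obtain ⟨l, hl⟩ := hs _ h1
    refine ⟨l, ?_⟩
    have h2 : s l = e y := hl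
    have h3 : σ l = y := by rw [hσ, h2, AlgEquiv.symm_apply_apply]
    exact h3
  · intro l y hy
    obtain ⟨P, Q, hQ, hyPQ⟩ := exists_frac F n y
    have h1 := hPQ P Q l (by
      have h2 := congrArg (up F n) hyPQ
      rw [map_mul, hy] at h2
      have h3 : ∀ R : MvPolynomial (Fin n) F, up F n (MvPolynomial.aeval (gen F n) R) =
        MvPolynomial.aeval (fun i => up F n (gen F n i)) R := by
        intro R
        rw [← AlgHom.comp_apply, MvPolynomial.comp_aeval]
      rw [h3, h3] at h2
      exact h2)
    have h4 := congrArg e hyPQ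
    rw [map_mul, he, he] at h4
    have h5 : MvPolynomial.aeval xb Q ≠ 0 := by
      intro h
      exact hQ (hxb (by rw [map_zero]; exact h))
    have h6 : s l = e y := mul_right_cancel₀ h5 (h1.trans h4.symm)
    rw [hσ, h6, AlgEquiv.symm_apply_apply]

end RF

end Pool.Agent.W_MP_d9e517_lc_h72
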